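import Pool.Agent.Work.MP_a23c49_bd.Def

set_option linter.unusedVariables false

namespace Pool.Agent.Work.MP_a23c49_bd

open Pool.Agent.Work.MP_a23c49_lc Pool.Agent.Work.TMLib Finset

theorem p_D1 (hT1 : S_T1) (hT2 : S_T2) (hW6 : S_W6) (hW7 : S_W7) : S_D1 := by
  intro T n t q j O hT hsup hO hOS htn hqn hq hlt
  by_cases hbig : t * O.card ≤ 4 * n
  · exact Or.inl hbig
  right
  have hnd : (List.range n).Nodup := List.nodup_range
  set X := prune T t (List.range n) with hX
  have hXnd : X.Nodup := hnd.sublist (prune_sub t _)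
  have hXlen : X.length ≤ n := by
    have := (prune_sub (T := T) t (List.range n)).length_le
    simpa using this
  have hloss := prune_loss hT hO t (List.range n) hOS
  have hcod0 := prune_cod (T := T) t (List.range n) hnd hsup
  have hcod : ∀ a ∈ X, ∀ b ∈ X, (X.filter fun c => T a b c).length ≤ t := by
    intro a _ b _
    have h3 : (X.toFinset.filter fun c => T a b c = true) = (X.filter fun c => T a b c).toFinset := by
      ext c
      simp
    have h4 := hcod0 a b
    rw [← hX, h3, List.toFinset_card_of_nodup (hXnd.filter _)] at h4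
    exact_mod_cast h4
  have h1 : O.card ≤ 2 * (O ∩ X.toFinset).card := by
    by_contra hc
    have hc := not_le.mp hc
    apply hbig
    have h2 : t * (2 * (O ∩ X.toFinset).card) ≤ t * O.card := Nat.mul_le_mul_left _ hc.le
    have h3 : t * O.card + 2 * X.length ≤ t * (O ∩ X.toFinset).card + 2 * n := by
      simpa using hloss
    nlinarith
  have hB : ∀ u ∈ bads T X (j + 2), u.Nodup ∧ u.length ≤ j + 2 := by
    intro u hu
    rw [hT1] at hu
    exact ⟨hu.2.2.1, hu.1.le⟩
  obtain ⟨d, hd1, hd2, hd3⟩ := hW7 q (j + 2) (bads T X (j + 2)) X (O ∩ X.toFinset) hq hXnd hB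
    Finset.inter_subset_right
  have hlen : (bads T X (j + 2)).length ≤ X.length ^ 2 * t ^ j := hT2 T X t j hXnd hcod
  have hlt2 : q * (bads T X (j + 2)).length < q ^ (j + 2) := by
    have h5 : (bads T X (j + 2)).length ≤ n ^ 2 * t ^ j :=
      hlen.trans (Nat.mul_le_mul_right _ (Nat.pow_le_pow_left hXlen 2))
    have h6 : (bads T X (j + 2)).length < q ^ (j + 1) := lt_of_le_of_lt h5 hlt
    calc q * (bads T X (j + 2)).length < q * q ^ (j + 1) := Nat.mul_lt_mul_of_pos_left h6 hq
      _ = q ^ (j + 2) := by ring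
  have hnil := hW6 T q (j + 2) X d hq hXnd hd1 hd2 hlt2
  refine ⟨part q (j + 2) (bads T X (j + 2)) X d, ?_, ?_⟩
  · unfold outp
    rw [List.mem_append]
    right
    rw [List.mem_flatMap]
    refine ⟨t, List.mem_range.mpr (by omega), ?_⟩
    rw [List.mem_flatMap]
    refine ⟨q, List.mem_range.mpr (by omega), ?_⟩
    unfold cand
    rw [List.mem_filter]
    refine ⟨?_, ?_⟩
    · rw [List.mem_map]
      refine ⟨d, ?_, rfl⟩
      unfold colors
      rw [List.mem_map]
      exact ⟨d - 1, List.mem_range.mpr (by omega), by omega⟩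
    · show (bads T (part q (j + 2) (bads T X (j + 2)) X d) (j + 2)).isEmpty = true
      rw [hnil]
      rfl
  · have h7 : (O ∩ X.toFinset ∩ (part q (j + 2) (bads T X (j + 2)) X d).toFinset).card ≤
        (O ∩ (part q (j + 2) (bads T X (j + 2)) X d).toFinset).card := by
      apply Finset.card_le_card
      intro y hy
      simp only [Finset.mem_inter] at hy ⊢
      exact ⟨hy.1.1, hy.2⟩
    calc O.card ≤ 2 * (O ∩ X.toFinset).card := h1
      _ ≤ 2 * (q * (O ∩ X.toFinset ∩ (part q (j + 2) (bads T X (j + 2)) X d).toFinset).card) :=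
          Nat.mul_le_mul_left _ hd3
      _ ≤ _ := Nat.mul_le_mul_left _ (Nat.mul_le_mul_left _ h7)

end Pool.Agent.Work.MP_a23c49_bd
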