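import Pool.Agent.Work.MP_a23c49_bd.Def

namespace Pool.Agent.Work.MP_a23c49_bd

theorem p_D2 : S_D2 := by
  intro ε K n hε hε1 hK hn
  have hn1 : (1 : ℝ) ≤ n := by exact_mod_cast hn
  have hn0 : (0 : ℝ) < n := by linarith
  have hεK : 2 ≤ ε * K := by
    rw [div_le_iff₀ hε] at hK
    linarith
  have hK2r : (2 : ℝ) ≤ K := by nlinarith [Nat.cast_nonneg (α := ℝ) K]
  have hK2 : 2 ≤ K := by exact_mod_cast hK2r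
  obtain ⟨j, rfl⟩ : ∃ j, K = j + 1 := ⟨K - 1, by omega⟩
  have hx1 : (1 : ℝ) ≤ (n : ℝ) ^ ε := Real.one_le_rpow hn1 hε.le
  have hy1 : (1 : ℝ) ≤ (n : ℝ) ^ (2 * ε) := Real.one_le_rpow hn1 (by linarith)
  have ht1 : 1 ≤ ⌊(n : ℝ) ^ ε⌋₊ := by
    rw [Nat.one_le_floor_iff]; exact hx1
  have ht1r : (1 : ℝ) ≤ (⌊(n : ℝ) ^ ε⌋₊ : ℝ) := by exact_mod_cast ht1
  have htle : (⌊(n : ℝ) ^ ε⌋₊ : ℝ) ≤ (n : ℝ) ^ ε := Nat.floor_le (by positivity)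
  have htlt : (n : ℝ) ^ ε < (⌊(n : ℝ) ^ ε⌋₊ : ℝ) + 1 := Nat.lt_floor_add_one _
  have hqle : (⌊(n : ℝ) ^ (2 * ε)⌋₊ : ℝ) ≤ (n : ℝ) ^ (2 * ε) := Nat.floor_le (by positivity)
  have hqlt : (n : ℝ) ^ (2 * ε) < (⌊(n : ℝ) ^ (2 * ε)⌋₊ : ℝ) + 1 := Nat.lt_floor_add_one _
  refine ⟨⌊(n : ℝ) ^ ε⌋₊, ⌊(n : ℝ) ^ (2 * ε)⌋₊ + 1, j, rfl, by omega, ?_, ?_, by linarith, ?_⟩
  · have h1 : (n : ℝ) ^ ε ≤ (n : ℝ) ^ (1 : ℝ) := Real.rpow_le_rpow_of_exponent_le hn1 hε1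
    rw [Real.rpow_one] at h1
    have : (⌊(n : ℝ) ^ ε⌋₊ : ℝ) ≤ n := htle.trans h1
    exact_mod_cast this
  · have h1 : (n : ℝ) ^ 2 * (⌊(n : ℝ) ^ ε⌋₊ : ℝ) ^ j ≤ (n : ℝ) ^ (2 + ε * j) := by
      have h2 : (⌊(n : ℝ) ^ ε⌋₊ : ℝ) ^ j ≤ ((n : ℝ) ^ ε) ^ j :=
        pow_le_pow_left₀ (by positivity) htle j
      have h3 : ((n : ℝ) ^ ε) ^ j = (n : ℝ) ^ (ε * j) := by
        rw [Real.rpow_mul hn0.le, Real.rpow_natCast]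
      rw [h3] at h2
      have h4 : (n : ℝ) ^ (2 + ε * j) = (n : ℝ) ^ 2 * (n : ℝ) ^ (ε * j) := by
        rw [Real.rpow_add hn0]
        norm_num
      rw [h4]
      exact mul_le_mul_of_nonneg_left h2 (by positivity)
    have h5 : (n : ℝ) ^ (2 + ε * j) ≤ (n : ℝ) ^ (2 * ε * ((j : ℝ) + 1)) := by
      apply Real.rpow_le_rpow_of_exponent_le hn1
      push_cast at hεK
      nlinarith
    have h6 : (n : ℝ) ^ (2 * ε * ((j : ℝ) + 1)) = ((n : ℝ) ^ (2 * ε)) ^ (j + 1) := by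
      rw [Real.rpow_mul hn0.le, ← Real.rpow_natCast ((n : ℝ) ^ (2 * ε)) (j + 1)]
      push_cast
      rfl
    have h7 : ((n : ℝ) ^ (2 * ε)) ^ (j + 1) < ((⌊(n : ℝ) ^ (2 * ε)⌋₊ : ℝ) + 1) ^ (j + 1) :=
      pow_lt_pow_left₀ hqlt (by positivity) (by omega)
    have h8 : (n : ℝ) ^ 2 * (⌊(n : ℝ) ^ ε⌋₊ : ℝ) ^ j <
        ((⌊(n : ℝ) ^ (2 * ε)⌋₊ : ℝ) + 1) ^ (j + 1) := by
      rw [h6] at h5
      linarith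
    exact_mod_cast h8
  · push_cast
    linarith

end Pool.Agent.Work.MP_a23c49_bd
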