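import Pool.Agent.Work.MP_a23c49_bd.Def

/-!
# Block D3: the alternative for indices
-/

namespace Pool.Agent.Work.MP_a23c49_bd

open Pool.Agent.Work.MP_a23c49_lc Pool.Agent.Work.TMLib Finset

theorem p_D3 (hD1 : S_D1) (hD2 : S_D2) : S_D3 := by
  intro ε K n T O hε hε1 hK hn hT hrg hO hOn
  obtain ⟨t, q, j, rfl, hq1, htn, hlt, hnt, hq⟩ := hD2 ε K n hε hε1 hK hn
  have hnr : (1 : ℝ) ≤ n := by exact_mod_cast hn
  have hn0 : (0 : ℝ) < n := by linarith
  have hy1 : 1 ≤ (n : ℝ) ^ (2 * ε) := Real.one_le_rpow hnr (by linarith)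
  rcases Nat.lt_or_ge n q with hqn | hqn
  · -- large `q`
    rcases O.eq_empty_or_nonempty with hO0 | ⟨i, hi⟩
    · left
      rw [hO0, Finset.card_empty]
      push_cast
      positivity
    · right
      have hin : i ∈ List.range n := List.mem_toFinset.1 (hOn hi)
      refine ⟨[i], ?_, ?_⟩
      · unfold outp
        exact List.mem_append.2 (Or.inl (List.mem_map.2 ⟨i, hin, rfl⟩))
      · have h1 : (O ∩ [i].toFinset) = {i} := by
          ext z
          simp only [Finset.mem_inter, List.mem_toFinset, List.mem_singleton, Finset.mem_singleton]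
          constructor
          · rintro ⟨-, h⟩
            exact h
          · rintro rfl
            exact ⟨hi, rfl⟩
        rw [h1, Finset.card_singleton]
        have h2 : O.card ≤ n := by
          refine (Finset.card_le_card hOn).trans ?_
          refine (List.toFinset_card_le _).trans ?_
          rw [List.length_range]
        have h3 : (O.card : ℝ) ≤ n := by exact_mod_cast h2
        have h4 : (n : ℝ) < q := by exact_mod_cast hqn
        push_cast
        linarith
  · rcases hD1 T n t q j O hT hrg hO hOn htn hqn hq1 hlt with h | ⟨Y, hY, h⟩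
    · left
      obtain ⟨gr, hgr⟩ : ∃ gr : ℕ, gr = (grd T (List.range n)).length := ⟨_, rfl⟩
      have h1 : O.card ≤ 3 * (grd T (List.range n)).length ^ 2 :=
        grd_large hT List.nodup_range hO hOn
      rw [← hgr] at h1 ⊢
      have h1r : (O.card : ℝ) ≤ 3 * (gr : ℝ) ^ 2 := by exact_mod_cast h1
      have h2r : (t : ℝ) * O.card ≤ 4 * n := by exact_mod_cast h
      have hne : 0 < (n : ℝ) ^ ε := by positivity
      have h3 : (n : ℝ) ^ ε * O.card ≤ 8 * n := by
        have h4 : (n : ℝ) ^ ε * O.card ≤ 2 * t * O.card :=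
          mul_le_mul_of_nonneg_right hnt (Nat.cast_nonneg _)
        linarith
      have h5 : (n : ℝ) ^ ε * (n : ℝ) ^ (1 - ε) = n := by
        rw [← Real.rpow_add hn0]
        have : ε + (1 - ε) = 1 := by ring
        rw [this, Real.rpow_one]
      have h6 : (O.card : ℝ) ≤ 8 * (n : ℝ) ^ (1 - ε) := by
        have h7 : (n : ℝ) ^ ε * O.card ≤ (n : ℝ) ^ ε * (8 * (n : ℝ) ^ (1 - ε)) := by
          calc (n : ℝ) ^ ε * O.card ≤ 8 * n := h3
            _ = (n : ℝ) ^ ε * (8 * (n : ℝ) ^ (1 - ε)) := by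
                rw [mul_left_comm, h5]
        exact le_of_mul_le_mul_left h7 hne
      have h8 : ((n : ℝ) ^ ((1 - ε) / 2)) ^ 2 = (n : ℝ) ^ (1 - ε) := by
        rw [← Real.rpow_natCast, ← Real.rpow_mul hn0.le]
        congr 1
        push_cast
        ring
      have h9 : (O.card : ℝ) ^ 2 ≤ (5 * (n : ℝ) ^ ((1 - ε) / 2) * gr) ^ 2 := by
        calc (O.card : ℝ) ^ 2 = O.card * O.card := by ring
          _ ≤ (8 * (n : ℝ) ^ (1 - ε)) * (3 * (gr : ℝ) ^ 2) :=
              mul_le_mul h6 h1r (Nat.cast_nonneg _) (by positivity)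
          _ ≤ 25 * (n : ℝ) ^ (1 - ε) * (gr : ℝ) ^ 2 := by
              have : 0 ≤ (n : ℝ) ^ (1 - ε) * (gr : ℝ) ^ 2 := by positivity
              linarith
          _ = (5 * (n : ℝ) ^ ((1 - ε) / 2) * gr) ^ 2 := by
              rw [← h8]
              ring
      exact (pow_le_pow_iff_left₀ (Nat.cast_nonneg _) (by positivity) two_ne_zero).1 h9
    · right
      refine ⟨Y, hY, ?_⟩
      have h1 : (O.card : ℝ) ≤ 2 * (q * ((O ∩ Y.toFinset).card : ℝ)) := by exact_mod_cast h
      have h2 : (q : ℝ) * ((O ∩ Y.toFinset).card : ℝ) ≤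
          2 * (n : ℝ) ^ (2 * ε) * ((O ∩ Y.toFinset).card : ℝ) :=
        mul_le_mul_of_nonneg_right hq (Nat.cast_nonneg _)
      linarith

end Pool.Agent.Work.MP_a23c49_bd
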