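import Pool.Agent.Work.MP_a23c49_bd.Def

/-! # MP_a23c49_lc, theorem BD, block F1: the subconfigurations -/

namespace Pool.Agent.Work.MP_a23c49_bd

open Pool.Agent.Work.MP_a23c49_lc Pool.Agent.Work.TMLib Finset

namespace F1

theorem tup_mem (X : List ℕ) : ∀ (m : ℕ) (t : List ℕ), t ∈ tup X m → t.length = m ∧ ∀ x ∈ t, x ∈ X := by
  intro m
  induction m with
  | zero =>
    intro t ht
    rw [tup, List.mem_singleton] at ht
    subst ht
    exact ⟨rfl, fun x hx => absurd hx List.not_mem_nil⟩
  | succ m ih =>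
    intro t ht
    rw [tup, List.mem_flatMap] at ht
    obtain ⟨s, hs, ht⟩ := ht
    rw [List.mem_map] at ht
    obtain ⟨x, hx, rfl⟩ := ht
    obtain ⟨h1, h2⟩ := ih s hs
    refine ⟨by rw [List.length_cons, h1], ?_⟩
    intro y hy
    rcases List.mem_cons.1 hy with rfl | hy
    · exact hx
    · exact h2 y hy

theorem bads_single (T : ℕ → ℕ → ℕ → Bool) (i m : ℕ) : bads T [i] (m + 2) = [] := by
  rw [bads, List.filter_eq_nil_iff]
  intro t ht h
  obtain ⟨h1, h2⟩ := tup_mem [i] (m + 2) t ht
  rw [Bool.and_eq_true] at h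
  have h3 := h.1
  have h2' : ∀ x ∈ t, x = i := fun x hx => List.mem_singleton.1 (h2 x hx)
  rw [nd, List.all_eq_true] at h3
  have hne : t ≠ [] := by
    intro he
    rw [he] at h1
    simp at h1
  obtain ⟨a, ha⟩ := List.exists_mem_of_ne_nil t hne
  have h4 := of_decide_eq_true (h3 a ha)
  have h5 : (t.filter fun b => decide (b = a)) = t := by
    rw [List.filter_eq_self]
    intro b hb
    rw [h2' b hb, h2' a ha]
    simp
  rw [h5, h1] at h4
  omega

end F1

theorem p_F1 : S_F1 := by
  intro S K hS hK Y hY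
  rw [outp, List.mem_append] at hY
  rcases hY with hY | hY
  · rw [List.mem_map] at hY
    obtain ⟨i, hi, rfl⟩ := hY
    refine ⟨List.nodup_singleton i, ?_, ?_⟩
    · intro j hj
      rw [List.mem_singleton.1 hj]
      exact List.mem_range.1 hi
    · obtain ⟨m, rfl⟩ : ∃ m, K = m + 1 := ⟨K - 1, by omega⟩
      exact F1.bads_single _ i m
  · rw [List.mem_flatMap] at hY
    obtain ⟨t, -, hY⟩ := hY
    rw [List.mem_flatMap] at hY
    obtain ⟨q, -, hY⟩ := hY
    rw [cand, List.mem_filter] at hY
    obtain ⟨hY, hb⟩ := hY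
    rw [List.mem_map] at hY
    obtain ⟨d, -, rfl⟩ := hY
    have hsub : (part q (K + 1) (bads (TS S) (prune (TS S) t (List.range S.length)) (K + 1))
        (prune (TS S) t (List.range S.length)) d).Sublist (List.range S.length) :=
      (List.filter_sublist).trans (prune_sub t (List.range S.length))
    refine ⟨(List.nodup_range).sublist hsub, ?_, List.isEmpty_iff.1 hb⟩
    intro i hi
    exact List.mem_range.1 (hsub.subset hi)

end Pool.Agent.Work.MP_a23c49_bd
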