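import Pool.Agent.Work.MP_a23c49_bd.Def

/-! Block F2: at most K points on a line (helper57). -/

set_option linter.unusedVariables false

namespace Pool.Agent.Work.MP_a23c49_bd

open Pool.Agent.Work.MP_a23c49_lc Pool.Agent.Work.TMLib Finset

theorem p_F2 (hT1 : S_T1) : S_F2 := by
  classical
  intro S K Y hS hK hY hYS hb A hA hcol
  by_contra hlt
  push Not at hlt
  have hinj : Set.InjOn (at' S) (Y.toFinset : Set ℕ) := by
    intro i hi j hj h
    have hi' : i ∈ Y := by simpa using hi
    have hj' : j ∈ Y := by simpa using hj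
    exact at'_inj hS (hYS i hi') (hYS j hj') h
  set I := Y.toFinset.filter (fun i => at' S i ∈ A) with hI
  have hIm : I.image (at' S) = A := by
    ext p
    simp only [hI, Finset.mem_image, Finset.mem_filter, List.mem_toFinset]
    constructor
    · rintro ⟨i, ⟨_, h2⟩, rfl⟩
      exact h2
    · intro hp
      have h1 := hA hp
      simp only [List.mem_toFinset, List.mem_map] at h1
      obtain ⟨i, hi, rfl⟩ := h1
      exact ⟨i, ⟨hi, hp⟩, rfl⟩
  have hIc : I.card = A.card := by
    rw [← hIm]
    refine (Finset.card_image_of_injOn ?_).symm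
    intro i hi j hj h
    refine hinj ?_ ?_ h
    · have := (Finset.mem_filter.mp (by exact_mod_cast hi)).1
      exact_mod_cast this
    · have := (Finset.mem_filter.mp (by exact_mod_cast hj)).1
      exact_mod_cast this
  obtain ⟨J, hJI, hJc⟩ := Finset.exists_subset_card_eq (s := I) (n := K + 1) (by omega)
  have hmem : ∀ a ∈ J, a ∈ Y ∧ at' S a ∈ A := by
    intro a ha
    have := Finset.mem_filter.mp (hJI ha)
    exact ⟨by simpa using this.1, this.2⟩
  have hin : J.toList ∈ bads (TS S) Y (K + 1) := by
    rw [hT1]
    refine ⟨by rw [Finset.length_toList, hJc], ?_, Finset.nodup_toList J, ?_⟩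
    · intro x hx
      exact (hmem x (by simpa using hx)).1
    · intro a ha b hb' c hc hab hbc hac
      have ha' := hmem a (by simpa using ha)
      have hb'' := hmem b (by simpa using hb')
      have hc' := hmem c (by simpa using hc)
      rw [TS_iff]
      refine ⟨⟨hYS a ha'.1, hYS b hb''.1, hYS c hc'.1⟩, ⟨hab, hbc, hac⟩, ?_⟩
      have hne : at' S a ≠ at' S b := fun h =>
        hab (at'_inj hS (hYS a ha'.1) (hYS b hb''.1) h)
      rw [← col3_iff hne]
      refine hcol.subset ?_
      intro x hx
      simp only [Set.mem_insert_iff, Set.mem_singleton_iff] at hx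
      rcases hx with rfl | rfl | rfl
      · exact ⟨_, ha'.2, rfl⟩
      · exact ⟨_, hb''.2, rfl⟩
      · exact ⟨_, hc'.2, rfl⟩
  rw [hb] at hin
  simp at hin

end Pool.Agent.Work.MP_a23c49_bd
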