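import Pool.Agent.Work.MP_a23c49_bd.Def

set_option linter.unusedVariables false

namespace Pool.Agent.Work.MP_a23c49_bd

open Pool.Agent.Work.MP_a23c49_lc Pool.Agent.Work.TMLib Finset

theorem p_F3 : S_F3 := by
  classical
  intro S O Y hS hO hY
  have hmem : ∀ i ∈ O ∩ Y.toFinset, i ∈ O ∧ i < S.length := by
    intro i hi
    rw [Finset.mem_inter, List.mem_toFinset] at hi
    exact ⟨hi.1, hY i hi.2⟩
  have hcard : ((O ∩ Y.toFinset).image (at' S)).card = (O ∩ Y.toFinset).card := by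
    apply Finset.card_image_of_injOn
    intro i hi j hj h
    exact at'_inj hS (hmem i hi).2 (hmem j hj).2 h
  have hsub : (O ∩ Y.toFinset).image (at' S) ⊆ (Y.map (at' S)).toFinset := by
    intro p hp
    rw [Finset.mem_image] at hp
    obtain ⟨i, hi, rfl⟩ := hp
    rw [Finset.mem_inter, List.mem_toFinset] at hi
    rw [List.mem_toFinset, List.mem_map]
    exact ⟨i, hi.2, rfl⟩
  have hgen : GenPos ((O ∩ Y.toFinset).image (at' S)) := by
    intro p hp q hq r hr hpq hqr hpr hc
    rw [Finset.mem_image] at hp hq hr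
    obtain ⟨i, hi, rfl⟩ := hp
    obtain ⟨j, hj, rfl⟩ := hq
    obtain ⟨k, hk, rfl⟩ := hr
    have h4 : TS S i j k = true := by
      rw [TS_iff]
      refine ⟨⟨(hmem i hi).2, (hmem j hj).2, (hmem k hk).2⟩, ⟨?_, ?_, ?_⟩, (col3_iff hpq).mp hc⟩
      · rintro rfl; exact hpq rfl
      · rintro rfl; exact hqr rfl
      · rintro rfl; exact hpr rfl
    rw [hO i (hmem i hi).1 j (hmem j hj).1 k (hmem k hk).1] at h4
    cases h4
  rw [← hcard]
  unfold MG
  exact Finset.le_sup (f := Finset.card) (Finset.mem_filter.2 ⟨Finset.mem_powerset.2 hsub, hgen⟩)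

end Pool.Agent.Work.MP_a23c49_bd
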