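import Pool.Agent.Work.MP_a23c49_bd.Def

namespace Pool.Agent.Work.MP_a23c49_bd

open Pool.Agent.Work.MP_a23c49_lc Pool.Agent.Work.TMLib Finset

theorem p_FIN (hP7 : S_P7) (hD3 : S_D3) (hF1 : S_F1) (hF2 : S_F2) (hF3 : S_F3) (hF4 : S_F4) : S_FIN := by
  intro ε K h0 h1 hK
  have hK2 : 2 ≤ K := by
    have h2 : (2 : ℝ) ≤ 2 / ε := by
      rw [le_div_iff₀ h0]
      linarith
    have h3 : (2 : ℝ) ≤ (K : ℝ) := h2.trans hK
    exact_mod_cast h3
  refine ⟨theR (K + 1), hP7 (K + 1), fun S hS => ⟨hF4 S hS, ?_, ?_⟩⟩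
  · intro Y hY
    unfold theR at hY
    simp only [List.mem_map] at hY
    obtain ⟨Y', hY', rfl⟩ := hY
    obtain ⟨a1, a2, a3⟩ := hF1 S K hS hK2 Y' hY'
    refine ⟨?_, ?_, hF2 S K Y' hS hK2 a1 a2 a3⟩
    · refine List.Nodup.map_on ?_ a1
      intro i hi j hj h
      exact at'_inj hS (a2 i hi) (a2 j hj) h
    · intro p hp
      rw [List.mem_toFinset, List.mem_map] at hp
      obtain ⟨i, hi, rfl⟩ := hp
      exact List.mem_toFinset.mpr (at'_mem (a2 i hi))
  · intro hne
    have hn : 1 ≤ S.length := List.length_pos_iff.2 hne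
    obtain ⟨O, hOS, hO, hc⟩ := exists_MG S.toFinset
    obtain ⟨O', hO', hO'S, hc'⟩ := transfer hS hOS hO
    have hsup : ∀ a b c, TS S a b c = true → a ∈ List.range S.length ∧ b ∈ List.range S.length := by
      intro a b c h
      rw [TS_iff] at h
      exact ⟨List.mem_range.mpr h.1.1, List.mem_range.mpr h.1.2.1⟩
    have e : (MG S.toFinset : ℝ) = (O'.card : ℝ) := by
      rw [hc', hc]
    rw [e]
    rcases hD3 ε K S.length (TS S) O' h0 h1 hK hn (TS_LS hS) hsup hO' hO'S with h | ⟨Y, hY, h⟩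
    · left
      have e1 : ((theR (K + 1) S).1.length : ℝ) = ((grd (TS S) (List.range S.length)).length : ℝ) := by
        unfold theR
        simp
      rw [e1]
      exact h
    · right
      refine ⟨Y.map (at' S), ?_, ?_⟩
      · unfold theR
        exact List.mem_map.2 ⟨Y, hY, rfl⟩
      · obtain ⟨-, a2, -⟩ := hF1 S K hS hK2 Y hY
        have h3 := hF3 S O' Y hS hO' a2
        have h4 : ((O' ∩ Y.toFinset).card : ℝ) ≤ (MG (Y.map (at' S)).toFinset : ℝ) := by exact_mod_cast h3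
        refine h.trans ?_
        exact mul_le_mul_of_nonneg_left h4 (by positivity)

end Pool.Agent.Work.MP_a23c49_bd
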