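import Pool.Agent.Work.MP_a23c49_bd.Def

/-!
# Polynomial time: powers, tuples, colours
-/

set_option autoImplicit false

namespace Pool.Agent.Work.MP_a23c49_bd

open Pool.Agent.Work.MP_a23c49_lc Pool.Agent.Work.TMLib Finset

theorem p_P1 : S_P1 := by
  intro m
  refine ⟨?_, ?_, ?_, ?_⟩
  · induction m with
    | zero => exact PolyF.const _
    | succ m ih =>
      change PolyF (fun q : ℕ => 1 :: (pws q m).map fun y => q * y)
      refine PolyF.cons (PolyF.const 1) ?_
      exact PolyF.map (l := fun q : ℕ => pws q m) (f := fun q y => q * y) ih (by fun_prop)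
  · induction m with
    | zero => exact PolyF.const _
    | succ m ih =>
      change PolyF (fun X : List ℕ => (tup X m).flatMap fun t => X.map fun x => x :: t)
      refine PolyF.flatMap (l := fun X : List ℕ => tup X m)
        (f := fun X t => X.map fun x => x :: t) ih ?_
      exact PolyF.map (l := fun p : List ℕ × List ℕ => p.1) (f := fun p x => x :: p.2)
        (by fun_prop) (by fun_prop)
  · change PolyF (fun p : List (ℕ × ℕ) × ℕ =>
      ((p.1.filter fun r => decide (r.1 = p.2)).map fun r => r.2).headD 0)
    refine PolyF.headD (PolyF.map (l := fun p : List (ℕ × ℕ) × ℕ =>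
      p.1.filter fun r => decide (r.1 = p.2)) (f := fun _ r => r.2) ?_ (by fun_prop))
      (PolyF.const 0)
    exact PolyF.filter (l := fun p : List (ℕ × ℕ) × ℕ => p.1)
      (f := fun p r => decide (r.1 = p.2)) (by fun_prop) (by fun_prop)
  · change PolyF (fun q : ℕ => (List.range q).map fun i => i + 1)
    exact PolyF.map (l := fun q : ℕ => List.range q) (f := fun _ i => i + 1) (by fun_prop)
      (by fun_prop)

end Pool.Agent.Work.MP_a23c49_bd
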