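import Pool.Agent.Work.MP_a23c49_bd.Def

set_option autoImplicit false

/-! # The bad tuples in polynomial time (block P2) -/

namespace Pool.Agent.Work.MP_a23c49_bd

open Pool.Agent.Work.MP_a23c49_lc Pool.Agent.Work.TMLib

namespace P2

theorem nd' : PolyF (fun t : List ℕ => nd t) := by
  unfold nd
  refine PolyF.all (l := fun t : List ℕ => t)
    (f := fun t a => decide ((t.filter fun b => decide (b = a)).length ≤ 1)) (by fun_prop) ?_
  have h : PolyF (fun p : List ℕ × ℕ => p.1.filter fun b => decide (b = p.2)) := by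
    refine PolyF.filter (l := fun p : List ℕ × ℕ => p.1)
      (f := fun p b => decide (b = p.2)) (by fun_prop) ?_
    fun_prop
  exact PolyF.le (PolyF.length h) (PolyF.const 1)

theorem cl' : PolyF (fun p : List (ℕ × ℕ × ℕ) × List ℕ => cl (TL p.1) p.2) := by
  unfold cl
  refine PolyF.all (l := fun p : List (ℕ × ℕ × ℕ) × List ℕ => p.2)
    (f := fun p a => p.2.all fun b => p.2.all fun c =>
      decide (a = b) || (decide (b = c) || (decide (a = c) || TL p.1 a b c))) (by fun_prop) ?_
  refine PolyF.all (l := fun p : (List (ℕ × ℕ × ℕ) × List ℕ) × ℕ => p.1.2)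
    (f := fun p b => p.1.2.all fun c =>
      decide (p.2 = b) || (decide (b = c) || (decide (p.2 = c) || TL p.1.1 p.2 b c)))
    (by fun_prop) ?_
  refine PolyF.all (l := fun p : ((List (ℕ × ℕ × ℕ) × List ℕ) × ℕ) × ℕ => p.1.1.2)
    (f := fun p c => decide (p.1.2 = p.2) || (decide (p.2 = c) ||
      (decide (p.1.2 = c) || TL p.1.1.1 p.1.2 p.2 c)))
    (by fun_prop) ?_
  fun_prop

end P2

theorem p_P2 (hP : S_P1) : S_P2 := by
  intro m
  obtain ⟨-, htup, -, -⟩ := hP m
  unfold bads
  refine PolyF.filter (l := fun p : List (ℕ × ℕ × ℕ) × List ℕ => tup p.2 m)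
    (f := fun p t => nd t && cl (TL p.1) t) ?_ ?_
  · exact PolyF.comp (f := fun X : List ℕ => tup X m)
      (g := fun p : List (ℕ × ℕ × ℕ) × List ℕ => p.2) htup (by fun_prop)
  · refine PolyF.and ?_ ?_
    · exact PolyF.comp (f := fun t : List ℕ => nd t)
        (g := fun p : (List (ℕ × ℕ × ℕ) × List ℕ) × List ℕ => p.2) P2.nd' (by fun_prop)
    · exact PolyF.comp (f := fun p : List (ℕ × ℕ × ℕ) × List ℕ => cl (TL p.1) p.2)
        (g := fun p : (List (ℕ × ℕ × ℕ) × List ℕ) × List ℕ => (p.1.1, p.2)) P2.cl' (by fun_prop)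

end Pool.Agent.Work.MP_a23c49_bd
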