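import Pool.Agent.Work.MP_a23c49_bd.Def

/-! # Block P3: the potential in polynomial time -/

set_option autoImplicit false

namespace Pool.Agent.Work.MP_a23c49_bd

open Pool.Agent.Work.MP_a23c49_lc Pool.Agent.Work.TMLib Finset

theorem P3h.wt' (hP : S_P1) (m : ℕ) :
    PolyF (fun p : ((ℕ × List (ℕ × ℕ)) × List ℕ) × ℕ => wt p.1.1.1 m p.1.1.2 p.1.2 p.2) := by
  have hpws : PolyF (fun q : ℕ => pws q m) := (hP m).1
  have hcol : PolyF (fun p : List (ℕ × ℕ) × ℕ => col p.1 p.2) := (hP m).2.2.1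
  have hpws' : PolyF (fun p : ((ℕ × List (ℕ × ℕ)) × List ℕ) × ℕ => pws p.1.1.1 m) :=
    PolyF.comp (f := fun q : ℕ => pws q m)
      (g := fun p : ((ℕ × List (ℕ × ℕ)) × List ℕ) × ℕ => p.1.1.1) hpws (by fun_prop)
  have hcol' : PolyF (fun p : (((ℕ × List (ℕ × ℕ)) × List ℕ) × ℕ) × ℕ => col p.1.1.1.2 p.2) :=
    PolyF.comp (f := fun p : List (ℕ × ℕ) × ℕ => col p.1 p.2)
      (g := fun p : (((ℕ × List (ℕ × ℕ)) × List ℕ) × ℕ) × ℕ => (p.1.1.1.2, p.2)) hcol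
      (by fun_prop)
  have h1 : PolyF (fun p : (((ℕ × List (ℕ × ℕ)) × List ℕ) × ℕ) × ℕ =>
      decide (col p.1.1.1.2 p.2 = p.1.2)) :=
    PolyF.eq (f := fun p : (((ℕ × List (ℕ × ℕ)) × List ℕ) × ℕ) × ℕ => col p.1.1.1.2 p.2)
      (g := fun p : (((ℕ × List (ℕ × ℕ)) × List ℕ) × ℕ) × ℕ => p.1.2) hcol' (by fun_prop)
  have h0 : PolyF (fun p : (((ℕ × List (ℕ × ℕ)) × List ℕ) × ℕ) × ℕ =>
      decide (col p.1.1.1.2 p.2 = 0)) := PolyF.isZero hcol'
  unfold wt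
  refine PolyF.cond ?_ ?_ (PolyF.const 0)
  · refine PolyF.all (l := fun p : ((ℕ × List (ℕ × ℕ)) × List ℕ) × ℕ => p.1.2)
      (f := fun p x => decide (col p.1.1.2 x = 0) || decide (col p.1.1.2 x = p.2))
      (by fun_prop) ?_
    exact PolyF.or h0 h1
  · refine PolyF.getD (PolyF.length ?_) hpws' (PolyF.const 0)
    exact PolyF.filter (l := fun p : ((ℕ × List (ℕ × ℕ)) × List ℕ) × ℕ => p.1.2)
      (f := fun p x => decide (col p.1.1.2 x = p.2)) (by fun_prop) h1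

theorem p_P3 (hP : S_P1) : S_P3 := by
  intro m
  have hcolors : PolyF (fun q : ℕ => colors q) := (hP m).2.2.2
  have hwt := P3h.wt' hP m
  unfold pot
  refine PolyF.sum ?_
  refine PolyF.map (l := fun p : (ℕ × List (List ℕ)) × List (ℕ × ℕ) => p.1.2)
    (f := fun p t => ((colors p.1.1).map fun c => wt p.1.1 m p.2 t c).sum) (by fun_prop) ?_
  refine PolyF.sum ?_
  refine PolyF.map
    (l := fun r : ((ℕ × List (List ℕ)) × List (ℕ × ℕ)) × List ℕ => colors r.1.1.1)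
    (f := fun r c => wt r.1.1.1 m r.1.2 r.2 c) ?_ ?_
  · exact PolyF.comp (f := fun q : ℕ => colors q)
      (g := fun r : ((ℕ × List (List ℕ)) × List (ℕ × ℕ)) × List ℕ => r.1.1.1) hcolors
      (by fun_prop)
  · exact PolyF.comp
      (f := fun p : ((ℕ × List (ℕ × ℕ)) × List ℕ) × ℕ => wt p.1.1.1 m p.1.1.2 p.1.2 p.2)
      (g := fun r : (((ℕ × List (List ℕ)) × List (ℕ × ℕ)) × List ℕ) × ℕ =>
        (((r.1.1.1.1, r.1.1.2), r.1.2), r.2)) hwt (by fun_prop)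

end Pool.Agent.Work.MP_a23c49_bd
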