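import Pool.Agent.Work.MP_a23c49_bd.Def

/-! # Block P4 (helper45) -/

set_option autoImplicit false

namespace Pool.Agent.Work.MP_a23c49_bd

open Pool.Agent.Work.MP_a23c49_lc Pool.Agent.Work.TMLib Finset

theorem p_P4 (hP : S_P1) (hP3 : S_P3) : S_P4 := by
  intro m
  have hcol : PolyF (fun q : ℕ => colors q) := (hP m).2.2.2
  have hpot : PolyF (fun p : (ℕ × List (List ℕ)) × List (ℕ × ℕ) => pot p.1.1 m p.1.2 p.2) := hP3 m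
  have hc1 : PolyF (fun p : ((ℕ × List (List ℕ)) × List (ℕ × ℕ)) × ℕ => colors p.1.1.1) :=
    PolyF.comp (f := fun q : ℕ => colors q)
      (g := fun p : ((ℕ × List (List ℕ)) × List (ℕ × ℕ)) × ℕ => p.1.1.1) hcol (by fun_prop)
  have hc2 : PolyF (fun p : (((ℕ × List (List ℕ)) × List (ℕ × ℕ)) × ℕ) × ℕ => colors p.1.1.1.1) :=
    PolyF.comp (f := fun q : ℕ => colors q)
      (g := fun p : (((ℕ × List (List ℕ)) × List (ℕ × ℕ)) × ℕ) × ℕ => p.1.1.1.1) hcol (by fun_prop)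
  have hp2 : PolyF (fun p : ((((ℕ × List (List ℕ)) × List (ℕ × ℕ)) × ℕ) × ℕ) × ℕ =>
      pot p.1.1.1.1.1 m p.1.1.1.1.2 ((p.1.1.2, p.1.2) :: p.1.1.1.2)) :=
    PolyF.comp (f := fun p : (ℕ × List (List ℕ)) × List (ℕ × ℕ) => pot p.1.1 m p.1.2 p.2)
      (g := fun p : ((((ℕ × List (List ℕ)) × List (ℕ × ℕ)) × ℕ) × ℕ) × ℕ =>
        (p.1.1.1.1, (p.1.1.2, p.1.2) :: p.1.1.1.2)) hpot (by fun_prop)
  have hp3 : PolyF (fun p : ((((ℕ × List (List ℕ)) × List (ℕ × ℕ)) × ℕ) × ℕ) × ℕ =>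
      pot p.1.1.1.1.1 m p.1.1.1.1.2 ((p.1.1.2, p.2) :: p.1.1.1.2)) :=
    PolyF.comp (f := fun p : (ℕ × List (List ℕ)) × List (ℕ × ℕ) => pot p.1.1 m p.1.2 p.2)
      (g := fun p : ((((ℕ × List (List ℕ)) × List (ℕ × ℕ)) × ℕ) × ℕ) × ℕ =>
        (p.1.1.1.1, (p.1.1.2, p.2) :: p.1.1.1.2)) hpot (by fun_prop)
  unfold best
  refine PolyF.headD (g := fun _ => 1) ?_ (by fun_prop)
  refine PolyF.filter (l := fun p : ((ℕ × List (List ℕ)) × List (ℕ × ℕ)) × ℕ => colors p.1.1.1)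
    (f := fun p d => (colors p.1.1.1).all fun e =>
      decide (pot p.1.1.1 m p.1.1.2 ((p.2, d) :: p.1.2) ≤ pot p.1.1.1 m p.1.1.2 ((p.2, e) :: p.1.2)))
    hc1 ?_
  refine PolyF.all (l := fun r : (((ℕ × List (List ℕ)) × List (ℕ × ℕ)) × ℕ) × ℕ => colors r.1.1.1.1)
    (f := fun r e => decide (pot r.1.1.1.1 m r.1.1.1.2 ((r.1.2, r.2) :: r.1.1.2) ≤
      pot r.1.1.1.1 m r.1.1.1.2 ((r.1.2, e) :: r.1.1.2))) hc2 ?_
  exact PolyF.le hp2 hp3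

end Pool.Agent.Work.MP_a23c49_bd
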