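import Pool.Agent.Work.MP_a23c49_bd.Def

set_option linter.unusedVariables false

namespace Pool.Agent.Work.MP_a23c49_bd

open Pool.Agent.Work.MP_a23c49_lc Pool.Agent.Work.TMLib Finset

theorem P5_best_le (q m : ℕ) (B : List (List ℕ)) (f : List (ℕ × ℕ)) (x : ℕ) : best q m B f x ≤ q + 1 := by
  unfold best
  cases h : (colors q).filter fun d => (colors q).all fun e =>
    decide (pot q m B ((x, d) :: f) ≤ pot q m B ((x, e) :: f)) with
  | nil =>
    rw [List.headD_nil]
    omega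
  | cons a l =>
    rw [List.headD_cons]
    have h1 : a ∈ (colors q).filter fun d => (colors q).all fun e =>
        decide (pot q m B ((x, d) :: f) ≤ pot q m B ((x, e) :: f)) := by
      rw [h]
      exact List.mem_cons_self
    have h2 := (List.mem_filter.1 h1).1
    unfold colors at h2
    rw [List.mem_map] at h2
    obtain ⟨i, hi, rfl⟩ := h2
    rw [List.mem_range] at hi
    omega

theorem P5_colr (hP4 : S_P4) (m : ℕ) :
    PolyF (fun p : (ℕ × List (List ℕ)) × List ℕ => colr p.1.1 m p.1.2 p.2) := by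
  unfold colr
  refine PolyF.foldl_add (l := fun p : (ℕ × List (List ℕ)) × List ℕ => p.2) (g := fun _ => [])
    (h := fun p s x => (x, best p.1.1 m p.1.2 s x) :: s) (by fun_prop) (by fun_prop) ?_
    (2 * Polynomial.X + 10) ?_
  · have h1 : PolyF (fun p : ((ℕ × List (List ℕ)) × List ℕ) × List (ℕ × ℕ) × ℕ =>
        best p.1.1.1 m p.1.1.2 p.2.1 p.2.2) :=
      PolyF.comp (f := fun p : ((ℕ × List (List ℕ)) × List (ℕ × ℕ)) × ℕ =>
        best p.1.1.1 m p.1.1.2 p.1.2 p.2)
        (g := fun p : ((ℕ × List (List ℕ)) × List ℕ) × List (ℕ × ℕ) × ℕ => ((p.1.1, p.2.1), p.2.2))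
        (hP4 m) (by fun_prop)
    fun_prop
  · intro a s x hx
    have h1 := sz_le_of_mem hx
    have h2 := P5_best_le a.1.1 m a.1.2 s x
    simp only [sz_cons, sz_pair, sz_nat, Polynomial.eval_add, Polynomial.eval_mul, Polynomial.eval_X,
      Polynomial.eval_ofNat] at h1 ⊢
    obtain ⟨⟨q, B⟩, X⟩ := a
    simp only [sz_pair, sz_nat] at h1 h2 ⊢
    omega

theorem p_P5 (hP : S_P1) (hP4 : S_P4) : S_P5 := by
  intro m
  unfold part
  have h1 := P5_colr hP4 m
  have h2 : PolyF (fun p : (((ℕ × List (List ℕ)) × List ℕ) × ℕ) × ℕ =>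
      col (colr p.1.1.1.1 m p.1.1.1.2 p.1.1.2) p.2) :=
    PolyF.comp (f := fun p : List (ℕ × ℕ) × ℕ => col p.1 p.2)
      (g := fun p : (((ℕ × List (List ℕ)) × List ℕ) × ℕ) × ℕ =>
        (colr p.1.1.1.1 m p.1.1.1.2 p.1.1.2, p.2)) (hP m).2.2.1
      (PolyF.pair (PolyF.comp (f := fun p : (ℕ × List (List ℕ)) × List ℕ => colr p.1.1 m p.1.2 p.2)
        (g := fun p : (((ℕ × List (List ℕ)) × List ℕ) × ℕ) × ℕ => p.1.1) h1 (by fun_prop)) (by fun_prop))
  refine PolyF.filter (l := fun p : ((ℕ × List (List ℕ)) × List ℕ) × ℕ => p.1.2)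
    (f := fun p x => decide (col (colr p.1.1.1 m p.1.1.2 p.1.2) x = p.2)) (by fun_prop) ?_
  fun_prop

end Pool.Agent.Work.MP_a23c49_bd
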