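import Pool.Agent.Work.MP_a23c49_bd.Def

/-!
# Block P6: the list of the subconfigurations is computed in polynomial time
-/

set_option autoImplicit false

namespace Pool.Agent.Work.MP_a23c49_bd

open Pool.Agent.Work.MP_a23c49_lc Pool.Agent.Work.TMLib Finset

theorem P6_cand (m : ℕ)
    (hb : PolyF (fun p : List (ℕ × ℕ × ℕ) × List ℕ => bads (TL p.1) p.2 m))
    (hpt : PolyF (fun p : ((ℕ × List (List ℕ)) × List ℕ) × ℕ => part p.1.1.1 m p.1.1.2 p.1.2 p.2))
    (hcol : PolyF (fun q : ℕ => colors q)) :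
    PolyF (fun p : (List (ℕ × ℕ × ℕ) × List ℕ) × ℕ => cand (TL p.1.1) m p.1.2 p.2) := by
  unfold cand
  refine PolyF.filter
    (l := fun p : (List (ℕ × ℕ × ℕ) × List ℕ) × ℕ =>
      (colors p.2).map fun d => part p.2 m (bads (TL p.1.1) p.1.2 m) p.1.2 d)
    (f := fun p Y => (bads (TL p.1.1) Y m).isEmpty) ?_ ?_
  · refine PolyF.map (l := fun p : (List (ℕ × ℕ × ℕ) × List ℕ) × ℕ => colors p.2)
      (f := fun p d => part p.2 m (bads (TL p.1.1) p.1.2 m) p.1.2 d) ?_ ?_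
    · exact PolyF.comp (f := fun q : ℕ => colors q)
        (g := fun p : (List (ℕ × ℕ × ℕ) × List ℕ) × ℕ => p.2) hcol (by fun_prop)
    · have hb' : PolyF (fun x : ((List (ℕ × ℕ × ℕ) × List ℕ) × ℕ) × ℕ =>
          bads (TL x.1.1.1) x.1.1.2 m) :=
        PolyF.comp (f := fun p : List (ℕ × ℕ × ℕ) × List ℕ => bads (TL p.1) p.2 m)
          (g := fun x : ((List (ℕ × ℕ × ℕ) × List ℕ) × ℕ) × ℕ => (x.1.1.1, x.1.1.2)) hb
          (by fun_prop)
      exact PolyF.comp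
        (f := fun p : ((ℕ × List (List ℕ)) × List ℕ) × ℕ => part p.1.1.1 m p.1.1.2 p.1.2 p.2)
        (g := fun x : ((List (ℕ × ℕ × ℕ) × List ℕ) × ℕ) × ℕ =>
          (((x.1.2, bads (TL x.1.1.1) x.1.1.2 m), x.1.1.2), x.2)) hpt
        (PolyF.pair (PolyF.pair (PolyF.pair (by fun_prop) hb') (by fun_prop)) (by fun_prop))
  · exact PolyF.isEmpty (PolyF.comp
      (f := fun p : List (ℕ × ℕ × ℕ) × List ℕ => bads (TL p.1) p.2 m)
      (g := fun x : ((List (ℕ × ℕ × ℕ) × List ℕ) × ℕ) × List ℕ => (x.1.1.1, x.2)) hb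
      (by fun_prop))

theorem p_P6 (hP2 : S_P2) (hP5 : S_P5) (hP : S_P1) : S_P6 := by
  intro m
  have hcand := P6_cand m (hP2 m) (hP5 m) (hP m).2.2.2
  unfold outp
  refine PolyF.append ?_ ?_
  · exact PolyF.map (l := fun p : List (ℕ × ℕ × ℕ) × ℕ => List.range p.2) (f := fun _ i => [i])
      (by fun_prop) (by fun_prop)
  · refine PolyF.flatMap (l := fun p : List (ℕ × ℕ × ℕ) × ℕ => List.range (p.2 + 1))
      (f := fun p t => (List.range (p.2 + 1)).flatMap fun q =>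
        cand (TL p.1) m (prune (TL p.1) t (List.range p.2)) q) (by fun_prop) ?_
    refine PolyF.flatMap (l := fun x : (List (ℕ × ℕ × ℕ) × ℕ) × ℕ => List.range (x.1.2 + 1))
      (f := fun x q => cand (TL x.1.1) m (prune (TL x.1.1) x.2 (List.range x.1.2)) q)
      (by fun_prop) ?_
    exact PolyF.comp
      (f := fun p : (List (ℕ × ℕ × ℕ) × List ℕ) × ℕ => cand (TL p.1.1) m p.1.2 p.2)
      (g := fun y : ((List (ℕ × ℕ × ℕ) × ℕ) × ℕ) × ℕ =>
        ((y.1.1.1, prune (TL y.1.1.1) y.1.2 (List.range y.1.1.2)), y.2)) hcand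
      (by fun_prop)

end Pool.Agent.Work.MP_a23c49_bd
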