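import Pool.Agent.Work.MP_a23c49_bd.Def

set_option linter.unusedVariables false

namespace Pool.Agent.Work.MP_a23c49_bd

open Pool.Agent.Work.MP_a23c49_lc Pool.Agent.Work.TMLib Finset

theorem P7_outp_lt (T : ℕ → ℕ → ℕ → Bool) (m n : ℕ) : ∀ Y ∈ outp T m n, ∀ i ∈ Y, i < n := by
  intro Y hY i hi
  unfold outp at hY
  rw [List.mem_append] at hY
  rcases hY with h | h
  · rw [List.mem_map] at h
    obtain ⟨k, hk, rfl⟩ := h
    rw [List.mem_range] at hk
    rw [List.mem_singleton] at hi
    omega
  · rw [List.mem_flatMap] at h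
    obtain ⟨t, _, h⟩ := h
    rw [List.mem_flatMap] at h
    obtain ⟨q, _, h⟩ := h
    unfold cand at h
    rw [List.mem_filter] at h
    obtain ⟨h, _⟩ := h
    rw [List.mem_map] at h
    obtain ⟨d, _, rfl⟩ := h
    unfold part at hi
    rw [List.mem_filter] at hi
    have := (prune_sub (T := T) t (List.range n)).subset hi.1
    simpa using this

theorem P7_grd_lt (T : ℕ → ℕ → ℕ → Bool) (n : ℕ) : ∀ i ∈ grd T (List.range n), i < n := by
  intro i hi
  have := grd_mem (T := T) (List.range n) [] (fun v => v ∈ List.range n) (fun v hv => hv) (by simp) i hi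
  simpa using this

/-- the points read -/
def P7pp (w : List (Fin 5)) : List RP := (parse w).2.2.2.1

theorem P7pp' : PolyF (fun w : List (Fin 5) => P7pp w) := by
  have := PolyF.parse
  unfold P7pp
  fun_prop

/-- the function computed by the machine, on strings -/
def P7G (m : ℕ) (w : List (Fin 5)) : List (Fin 5) :=
  ((grd (TL (table (P7pp w))) (List.range (P7pp w).length)).flatMap fun i => encR ((P7pp w).getD i [])) ++ [4] ++
    (outp (TL (table (P7pp w))) m (P7pp w).length).flatMap fun Y =>
      (Y.flatMap fun i => encR ((P7pp w).getD i [])) ++ [4]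

theorem P7enc : PolyF (fun p : List RP × List ℕ => p.2.flatMap fun i => encR (p.1.getD i [])) := by
  refine PolyF.flatMap (l := fun p : List RP × List ℕ => p.2) (f := fun p i => encR (p.1.getD i [])) (by fun_prop) ?_
  exact PolyF.comp (f := fun r : RP => MP_a23c49_lc.encR r)
    (g := fun p : (List RP × List ℕ) × ℕ => p.1.1.getD p.2 []) PolyF.encR (by fun_prop)

theorem P7G' (hP6 : S_P6) (m : ℕ) : PolyF (fun w : List (Fin 5) => P7G m w) := by
  have hp := P7pp'
  have ht : PolyF (fun w : List (Fin 5) => table (P7pp w)) :=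
    PolyF.comp (f := fun P : List RP => MP_a23c49_lc.table P) (g := fun w : List (Fin 5) => P7pp w) PolyF.table hp
  have hl : PolyF (fun w : List (Fin 5) => (P7pp w).length) := by fun_prop
  have hg : PolyF (fun w : List (Fin 5) => grd (TL (table (P7pp w))) (List.range (P7pp w).length)) :=
    PolyF.grd ht (by fun_prop)
  have ho : PolyF (fun w : List (Fin 5) => outp (TL (table (P7pp w))) m (P7pp w).length) :=
    PolyF.comp (f := fun p : List (ℕ × ℕ × ℕ) × ℕ => outp (TL p.1) m p.2)
      (g := fun w : List (Fin 5) => (table (P7pp w), (P7pp w).length)) (hP6 m) (by fun_prop)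
  unfold P7G
  refine PolyF.append (PolyF.append ?_ (by fun_prop)) ?_
  · exact PolyF.comp (f := fun p : List RP × List ℕ => p.2.flatMap fun i => encR (p.1.getD i []))
      (g := fun w : List (Fin 5) => (P7pp w, grd (TL (table (P7pp w))) (List.range (P7pp w).length))) P7enc
      (by fun_prop)
  · refine PolyF.flatMap (l := fun w : List (Fin 5) => outp (TL (table (P7pp w))) m (P7pp w).length)
      (f := fun w Y => (Y.flatMap fun i => encR ((P7pp w).getD i [])) ++ [4]) ho ?_
    refine PolyF.append ?_ (by fun_prop)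
    have hp2 : PolyF (fun p : List (Fin 5) × List ℕ => P7pp p.1) :=
      PolyF.comp (f := fun w : List (Fin 5) => P7pp w) (g := fun p : List (Fin 5) × List ℕ => p.1) hp (by fun_prop)
    exact PolyF.comp (f := fun p : List RP × List ℕ => p.2.flatMap fun i => encR (p.1.getD i []))
      (g := fun p : List (Fin 5) × List ℕ => (P7pp p.1, p.2)) P7enc (by fun_prop)

theorem P7_enc_eq (S : List (ℚ × ℚ)) (Y : List ℕ) (hY : ∀ i ∈ Y, i < S.length) :
    (Y.flatMap fun i => encR ((S.map rawP).getD i [])) = encPoints (Y.map (at' S)) := by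
  unfold encPoints
  rw [List.flatMap_map]
  apply List.flatMap_congr
  intro i hi
  have hi' := hY i hi
  have e3 : (S.map rawP).getD i [] = rawP (at' S i) := by
    unfold at'
    rw [List.getD_eq_getElem _ _ (by simpa using hi'), List.getD_eq_getElem _ _ hi',
      List.getElem_map]
  rw [e3, encR_raw]

theorem p_P7 (hP6 : S_P6) : S_P7 := by
  intro m
  refine PolyTime.of_PolyF (Equiv.refl (Fin 5)) (Equiv.refl (Fin 5)) (P7G' hP6 m) fun S => ?_
  have e1 : (encPoints S).map (Equiv.refl (Fin 5)) = encPoints S := by simp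
  have e2 : (encOut (theR m S)).map (Equiv.refl (Fin 5)) = encOut (theR m S) := by simp
  rw [e1, e2]
  have e3 : P7pp (encPoints S) = S.map rawP := by
    unfold P7pp parse
    rw [pstep_points]
    simp
  unfold P7G encOut theR
  rw [e3]
  simp only [List.length_map]
  rw [P7_enc_eq S _ (P7_grd_lt _ _), List.flatMap_map]
  unfold TS
  congr 1
  apply List.flatMap_congr
  intro Y hY
  rw [P7_enc_eq S Y (P7_outp_lt _ m _ Y hY)]

end Pool.Agent.Work.MP_a23c49_bd
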