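import Pool.Agent.Work.MP_a23c49_bd.Def

/-!
# Block T1: the bad tuples (typed by helper81)
-/

namespace Pool.Agent.Work.MP_a23c49_bd

open Pool.Agent.Work.MP_a23c49_lc Pool.Agent.Work.TMLib Finset

namespace T1

theorem mem_tup (X : List ℕ) : ∀ (m : ℕ) (t : List ℕ),
    t ∈ tup X m ↔ t.length = m ∧ ∀ x ∈ t, x ∈ X := by
  intro m
  induction m with
  | zero =>
    intro t
    constructor
    · intro h
      have h' : t = [] := by simpa [tup] using h
      subst h'
      simp
    · rintro ⟨h, -⟩
      have h' : t = [] := List.length_eq_zero_iff.1 h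
      subst h'
      simp [tup]
  | succ m ih =>
    intro t
    constructor
    · intro h
      simp only [tup, List.mem_flatMap, List.mem_map] at h
      obtain ⟨t0, ht0, x, hx, rfl⟩ := h
      obtain ⟨h1, h2⟩ := (ih t0).1 ht0
      refine ⟨by simp [h1], ?_⟩
      intro y hy
      rcases List.mem_cons.1 hy with rfl | hy
      · exact hx
      · exact h2 y hy
    · rintro ⟨h1, h2⟩
      cases t with
      | nil => simp at h1
      | cons x t0 =>
        simp only [tup, List.mem_flatMap, List.mem_map]
        refine ⟨t0, (ih t0).2 ⟨by simpa using h1, fun y hy => h2 y (List.mem_cons_of_mem _ hy)⟩,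
          x, h2 x List.mem_cons_self, rfl⟩

theorem nd_iff (t : List ℕ) : nd t = true ↔ t.Nodup := by
  have hc : ∀ a : ℕ, (t.filter fun b => decide (b = a)).length = t.count a := by
    intro a
    rw [List.count, List.countP_eq_length_filter]
    congr 1
  unfold nd
  rw [List.all_eq_true, List.nodup_iff_count_le_one]
  constructor
  · intro h a
    by_cases ha : a ∈ t
    · have h1 := h a ha
      rw [decide_eq_true_eq, hc] at h1
      exact h1
    · rw [List.count_eq_zero_of_not_mem ha]
      exact Nat.zero_le _
  · intro h a _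
    rw [decide_eq_true_eq, hc]
    exact h a

theorem cl_iff (T : ℕ → ℕ → ℕ → Bool) (t : List ℕ) : cl T t = true ↔
    ∀ a ∈ t, ∀ b ∈ t, ∀ c ∈ t, a ≠ b → b ≠ c → a ≠ c → T a b c = true := by
  unfold cl
  simp only [List.all_eq_true, Bool.or_eq_true, decide_eq_true_eq]
  constructor
  · intro h a ha b hb c hc h1 h2 h3
    rcases h a ha b hb c hc with h4 | h4 | h4 | h4
    · exact absurd h4 h1
    · exact absurd h4 h2
    · exact absurd h4 h3
    · exact h4
  · intro h a ha b hb c hc
    by_cases h1 : a = b
    · exact Or.inl h1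
    by_cases h2 : b = c
    · exact Or.inr (Or.inl h2)
    by_cases h3 : a = c
    · exact Or.inr (Or.inr (Or.inl h3))
    exact Or.inr (Or.inr (Or.inr (h a ha b hb c hc h1 h2 h3)))

end T1

/-- T1. -/
theorem p_T1 : S_T1 := by
  intro T X m t
  unfold bads
  rw [List.mem_filter, Bool.and_eq_true, T1.mem_tup, T1.nd_iff, T1.cl_iff, and_assoc]

end Pool.Agent.Work.MP_a23c49_bd
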