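import Pool.Agent.Work.MP_a23c49_bd.Def

/-!
# Block T2: the number of bad tuples
-/

set_option autoImplicit false

namespace Pool.Agent.Work.MP_a23c49_bd

theorem T2.nodup_tup (X : List ℕ) (hX : X.Nodup) : ∀ m : ℕ, (tup X m).Nodup
  | 0 => by simp [tup]
  | m + 1 => by
    rw [tup, List.nodup_flatMap]
    refine ⟨fun t _ => hX.map (fun a b h => (List.cons.inj h).1), ?_⟩
    refine List.Pairwise.imp ?_ (T2.nodup_tup X hX m)
    intro a b hab
    rw [Function.onFun, List.disjoint_left]
    intro t ht1 ht2
    rw [List.mem_map] at ht1 ht2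
    obtain ⟨x, _, rfl⟩ := ht1
    obtain ⟨y, _, h2⟩ := ht2
    exact hab (List.cons.inj h2).2.symm

theorem T2.length_tup (X : List ℕ) : ∀ m : ℕ, (tup X m).length = X.length ^ m
  | 0 => by simp [tup]
  | m + 1 => by
    rw [tup, List.length_flatMap]
    simp only [List.length_map, List.map_const', List.sum_replicate, smul_eq_mul]
    rw [T2.length_tup X m, pow_succ]

theorem p_T2 (hT1 : S_T1) : S_T2 := by
  intro T X s j hX hs
  have hB : ∀ m, (bads T X m).Nodup := fun m => (T2.nodup_tup X hX m).filter _
  induction j with
  | zero =>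
    rw [pow_zero, mul_one, zero_add, ← T2.length_tup X 2]
    exact List.length_filter_le _ _
  | succ j ih =>
    have h1 : (bads T X (j + 1 + 2)).toFinset ⊆ (bads T X (j + 2)).toFinset.biUnion
        (fun t => ((X.filter fun c => T (t.headD 0) (t.tail.headD 0) c).map
          (fun x => x :: t)).toFinset) := by
      intro t ht
      rw [List.mem_toFinset, hT1] at ht
      obtain ⟨hl, hx, hn, hc⟩ := ht
      match t, hl, hx, hn, hc with
      | x :: a :: b :: r, hl, hx, hn, hc =>
        rw [Finset.mem_biUnion]
        refine ⟨a :: b :: r, ?_, ?_⟩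
        · rw [List.mem_toFinset, hT1]
          refine ⟨by simpa using hl, fun y hy => hx y (List.mem_cons_of_mem _ hy),
            (List.nodup_cons.1 hn).2, fun a' ha' b' hb' c' hc' => hc a' (List.mem_cons_of_mem _ ha')
              b' (List.mem_cons_of_mem _ hb') c' (List.mem_cons_of_mem _ hc')⟩
        · rw [List.mem_toFinset, List.mem_map]
          refine ⟨x, ?_, rfl⟩
          rw [List.mem_filter]
          refine ⟨hx x (by simp), ?_⟩
          simp only [List.headD_cons, List.tail_cons]
          simp only [List.nodup_cons, List.mem_cons, not_or] at hn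
          exact hc a (by simp) b (by simp) x (by simp) (fun h => hn.2.1.1 h)
            (fun h => hn.1.2.1 h.symm) (fun h => hn.1.1 h.symm)
    have h2 := Finset.card_le_card h1
    rw [List.toFinset_card_of_nodup (hB _)] at h2
    refine h2.trans ((Finset.card_biUnion_le_card_mul _ _ s ?_).trans ?_)
    · intro t ht
      rw [List.mem_toFinset, hT1] at ht
      obtain ⟨hl, hx, _, _⟩ := ht
      refine (List.toFinset_card_le _).trans ?_
      rw [List.length_map]
      match t, hl, hx with
      | a :: b :: r, hl, hx =>
        exact hs a (hx a (by simp)) b (hx b (by simp))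
    · rw [List.toFinset_card_of_nodup (hB _), pow_succ s, ← mul_assoc]
      exact Nat.mul_le_mul_right s ih

end Pool.Agent.Work.MP_a23c49_bd
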