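import Pool.Agent.Work.MP_a23c49_bd.Def

/-!
# MP_a23c49_lc, theorem BD: block W1 (helper9)
-/

namespace Pool.Agent.Work.MP_a23c49_bd

namespace W1

theorem len (q : ℕ) : ∀ m : ℕ, (pws q m).length = m + 1
  | 0 => rfl
  | m + 1 => by
      show (1 :: (pws q m).map fun y => q * y).length = m + 1 + 1
      rw [List.length_cons, List.length_map, len q m]

theorem get (q : ℕ) : ∀ m j : ℕ, j ≤ m → (pws q m)[j]? = some (q ^ j)
  | 0, j, hj => by
      have h0 : j = 0 := by omega
      subst h0
      simp [pws]
  | m + 1, 0, _ => by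
      simp [pws]
  | m + 1, j + 1, hj => by
      have h := get q m j (by omega)
      show (1 :: (pws q m).map fun y => q * y)[j + 1]? = some (q ^ (j + 1))
      rw [List.getElem?_cons_succ, List.getElem?_map, h]
      simp [pow_succ, mul_comm]

end W1

theorem p_W1 : S_W1 := by
  intro q m j hj
  rw [List.getD_eq_getElem?_getD, W1.get q m j hj]
  rfl

end Pool.Agent.Work.MP_a23c49_bd
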