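import Pool.Agent.Work.MP_a23c49_bd.Def

namespace Pool.Agent.Work.MP_a23c49_bd
namespace W2h

open Pool.Agent.Work.MP_a23c49_lc Pool.Agent.Work.TMLib Finset

theorem col_cons (f : List (ℕ × ℕ)) (x d y : ℕ) : col ((x, d) :: f) y = if x = y then d else col f y := by
  unfold col
  by_cases h : x = y
  · rw [List.filter_cons_of_pos (by simpa using h), if_pos h]
    rfl
  · rw [List.filter_cons_of_neg (by simpa using h), if_neg h]

theorem sum_if (q c : ℕ) (h1 : 1 ≤ c) (h2 : c ≤ q) (F : ℕ → ℕ) (v : ℕ) (hc : F c = v)
    (h0 : ∀ d, 1 ≤ d → d ≠ c → F d = 0) : ((colors q).map F).sum = v := by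
  unfold colors
  rw [List.map_map]
  have key : ∀ n, ((List.range n).map (F ∘ fun i => i + 1)).sum = if c ≤ n then v else 0 := by
    intro n
    induction n with
    | zero =>
      rw [if_neg (by omega)]
      rfl
    | succ n ih =>
      rw [List.range_succ, List.map_append, List.sum_append, ih]
      simp only [List.map_cons, List.map_nil, List.sum_cons, List.sum_nil, Function.comp, Nat.add_zero]
      by_cases hn : c ≤ n
      · rw [if_pos hn, if_pos (by omega), h0 (n + 1) (by omega) (by omega)]
        omega
      · by_cases hn' : n + 1 = c
        · rw [if_neg hn, if_pos (by omega), hn', hc]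
          omega
        · rw [if_neg hn, if_neg (by omega), h0 (n + 1) (by omega) (by omega)]
  rw [key, if_pos h2]

theorem sum_const (q v : ℕ) (F : ℕ → ℕ) (h : ∀ d, F d = v) : ((colors q).map F).sum = q * v := by
  unfold colors
  rw [List.map_map, show (F ∘ fun i => i + 1) = fun _ => v from funext fun i => h _]
  simp

theorem all_iff (f : List (ℕ × ℕ)) (t : List ℕ) (c : ℕ) :
    (t.all fun x => decide (col f x = 0) || decide (col f x = c)) = true ↔ ∀ y ∈ t, col f y = 0 ∨ col f y = c := by
  simp

/-- the number of `c`-coloured entries grows by one -/
theorem cnt (f : List (ℕ × ℕ)) (x c : ℕ) (hc : 1 ≤ c) (hx : col f x = 0) : ∀ t : List ℕ, t.Nodup → x ∈ t →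
    (t.filter fun y => decide (col ((x, c) :: f) y = c)).length = (t.filter fun y => decide (col f y = c)).length + 1 := by
  intro t
  induction t with
  | nil => intro _ h; simp at h
  | cons a t ih =>
    intro hn hm
    rw [List.nodup_cons] at hn
    by_cases hax : x = a
    · subst hax
      have e : (t.filter fun y => decide (col ((x, c) :: f) y = c)) = t.filter fun y => decide (col f y = c) := by
        apply List.filter_congr
        intro y hy
        have : x ≠ y := by rintro rfl; exact hn.1 hy
        rw [col_cons, if_neg this]
      rw [List.filter_cons_of_pos (by rw [col_cons, if_pos rfl]; simp), List.filter_cons_of_neg (by rw [hx]; simp; omega),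
        e, List.length_cons]
    · have hm' : x ∈ t := by
        rcases List.mem_cons.1 hm with h | h
        · exact absurd h hax
        · exact h
      have e : col ((x, c) :: f) a = col f a := by rw [col_cons, if_neg hax]
      by_cases hca : col f a = c
      · rw [List.filter_cons_of_pos (by rw [e]; simpa using hca), List.filter_cons_of_pos (by simpa using hca),
          List.length_cons, List.length_cons, ih hn.2 hm']
      · rw [List.filter_cons_of_neg (by rw [e]; simpa using hca), List.filter_cons_of_neg (by simpa using hca),
          ih hn.2 hm']

end W2h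

open Pool.Agent.Work.MP_a23c49_lc Pool.Agent.Work.TMLib Finset

theorem p_W2 (hW1 : S_W1) : S_W2 := by
  intro q m f t c x h1 h2 hn hl hx
  by_cases hm : x ∈ t
  · refine W2h.sum_if q c h1 h2 _ _ ?_ ?_
    · unfold wt
      by_cases ha : ∀ y ∈ t, col f y = 0 ∨ col f y = c
      · have ha' : ∀ y ∈ t, col ((x, c) :: f) y = 0 ∨ col ((x, c) :: f) y = c := by
          intro y hy
          rw [W2h.col_cons]
          split_ifs
          · exact Or.inr rfl
          · exact ha y hy
        rw [(W2h.all_iff f t c).2 ha, (W2h.all_iff _ t c).2 ha', cond_true, cond_true, W2h.cnt f x c h1 hx t hn hm]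
        have hlt : (t.filter fun y => decide (col f y = c)).length + 1 ≤ m := by
          rw [← W2h.cnt f x c h1 hx t hn hm]
          exact (List.length_filter_le _ _).trans hl
        rw [hW1 q m _ hlt, hW1 q m _ (by omega), pow_succ]
        ring
      · have ha' : ¬ ∀ y ∈ t, col ((x, c) :: f) y = 0 ∨ col ((x, c) :: f) y = c := by
          intro h
          apply ha
          intro y hy
          have h3 := h y hy
          rw [W2h.col_cons] at h3
          split_ifs at h3 with h4
          · subst h4
            exact Or.inl hx
          · exact h3
        have e1 : (t.all fun x => decide (col f x = 0) || decide (col f x = c)) = false := by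
          rw [← Bool.not_eq_true, W2h.all_iff]
          exact ha
        have e2 : (t.all fun y => decide (col ((x, c) :: f) y = 0) || decide (col ((x, c) :: f) y = c)) = false := by
          rw [← Bool.not_eq_true, W2h.all_iff]
          exact ha'
        rw [e1, e2, cond_false, cond_false, Nat.mul_zero]
    · intro d hd hdc
      unfold wt
      have e2 : (t.all fun y => decide (col ((x, d) :: f) y = 0) || decide (col ((x, d) :: f) y = c)) = false := by
        rw [← Bool.not_eq_true, W2h.all_iff]
        intro h
        have h3 := h x hm
        rw [W2h.col_cons, if_pos rfl] at h3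
        omega
      rw [e2, cond_false]
  · apply W2h.sum_const
    intro d
    have e : ∀ y ∈ t, col ((x, d) :: f) y = col f y := by
      intro y hy
      rw [W2h.col_cons, if_neg]
      rintro rfl
      exact hm hy
    unfold wt
    have e1 : (t.all fun y => decide (col ((x, d) :: f) y = 0) || decide (col ((x, d) :: f) y = c)) =
        t.all fun x => decide (col f x = 0) || decide (col f x = c) := by
      rw [Bool.eq_iff_iff, W2h.all_iff, W2h.all_iff]
      constructor
      · intro h y hy
        rw [← e y hy]
        exact h y hy
      · intro h y hy
        rw [e y hy]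
        exact h y hy
    have e2 : (t.filter fun y => decide (col ((x, d) :: f) y = c)) = t.filter fun y => decide (col f y = c) := by
      apply List.filter_congr
      intro y hy
      rw [e y hy]
    rw [e1, e2]

end Pool.Agent.Work.MP_a23c49_bd
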