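import Pool.Agent.Work.MP_a23c49_bd.Def

/-!
# MP_a23c49_bd, block W3: the average of the potential
-/

namespace Pool.Agent.Work.MP_a23c49_bd

open Pool.Agent.Work.MP_a23c49_lc Pool.Agent.Work.TMLib Finset

theorem W3h.sum_comm {α β : Type*} (l₁ : List α) (l₂ : List β) (g : α → β → ℕ) :
    (l₁.map fun a => (l₂.map fun b => g a b).sum).sum =
      (l₂.map fun b => (l₁.map fun a => g a b).sum).sum := by
  induction l₁ with
  | nil => simp
  | cons a l ih => simp only [List.map_cons, List.sum_cons, ih, List.sum_map_add]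

theorem p_W3 (hW2 : S_W2) : S_W3 := by
  intro q m B f x hB hf
  unfold pot
  rw [W3h.sum_comm]
  rw [← List.sum_map_mul_left]
  congr 1
  apply List.map_congr_left
  intro t ht
  rw [W3h.sum_comm, ← List.sum_map_mul_left]
  congr 1
  apply List.map_congr_left
  intro c hc
  have hc' : 1 ≤ c ∧ c ≤ q := by
    unfold colors at hc
    rw [List.mem_map] at hc
    obtain ⟨i, hi, rfl⟩ := hc
    rw [List.mem_range] at hi
    omega
  exact hW2 q m f t c x hc'.1 hc'.2 (hB t ht).1 (hB t ht).2 hf

end Pool.Agent.Work.MP_a23c49_bd
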