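import Pool.Agent.Work.MP_a23c49_bd.Def

/-!
# MP_a23c49_bd, block W4: the best colour
-/

namespace Pool.Agent.Work.MP_a23c49_bd

open Pool.Agent.Work.MP_a23c49_lc Pool.Agent.Work.TMLib Finset

theorem W4.mem_colors (q d : ℕ) : d ∈ colors q ↔ 1 ≤ d ∧ d ≤ q := by
  unfold colors
  rw [List.mem_map]
  constructor
  · rintro ⟨i, hi, rfl⟩
    rw [List.mem_range] at hi
    omega
  · rintro ⟨h1, h2⟩
    exact ⟨d - 1, by rw [List.mem_range]; omega, by omega⟩

theorem W4.len_colors (q : ℕ) : (colors q).length = q := by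
  unfold colors
  simp

theorem W4.best_spec (q m : ℕ) (B : List (List ℕ)) (f : List (ℕ × ℕ)) (x : ℕ) (hq : 1 ≤ q) :
    best q m B f x ∈ colors q ∧
      ∀ e ∈ colors q, pot q m B ((x, best q m B f x) :: f) ≤ pot q m B ((x, e) :: f) := by
  classical
  obtain ⟨d0, hd0, hmin⟩ := (colors q).toFinset.exists_min_image
    (fun d => pot q m B ((x, d) :: f))
    ⟨1, by rw [List.mem_toFinset, W4.mem_colors]; omega⟩
  rw [List.mem_toFinset] at hd0
  have hF : d0 ∈ (colors q).filter fun d => (colors q).all fun e =>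
      decide (pot q m B ((x, d) :: f) ≤ pot q m B ((x, e) :: f)) := by
    rw [List.mem_filter]
    refine ⟨hd0, ?_⟩
    rw [List.all_eq_true]
    intro e he
    rw [decide_eq_true_eq]
    exact hmin e (List.mem_toFinset.mpr he)
  have hb : best q m B f x ∈ (colors q).filter fun d => (colors q).all fun e =>
      decide (pot q m B ((x, d) :: f) ≤ pot q m B ((x, e) :: f)) := by
    unfold best
    rcases h : ((colors q).filter fun d => (colors q).all fun e =>
      decide (pot q m B ((x, d) :: f) ≤ pot q m B ((x, e) :: f))) with _ | ⟨a, l⟩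
    · rw [h] at hF
      simp at hF
    · simp
  rw [List.mem_filter, List.all_eq_true] at hb
  refine ⟨hb.1, fun e he => ?_⟩
  have := hb.2 e he
  rwa [decide_eq_true_eq] at this

theorem p_W4 (hW3 : S_W3) : S_W4 := by
  intro q m B f x hq hB hf
  obtain ⟨h1, h2⟩ := W4.best_spec q m B f x hq
  refine ⟨(W4.mem_colors q _).mp h1, ?_⟩
  have h3 := hW3 q m B f x hB hf
  have h4 : ((colors q).map fun d => pot q m B ((x, d) :: f)).length •
      pot q m B ((x, best q m B f x) :: f) ≤
      ((colors q).map fun d => pot q m B ((x, d) :: f)).sum := by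
    apply List.card_nsmul_le_sum
    intro y hy
    rw [List.mem_map] at hy
    obtain ⟨e, he, rfl⟩ := hy
    exact h2 e he
  rw [h3, List.length_map, W4.len_colors, smul_eq_mul] at h4
  exact Nat.le_of_mul_le_mul_left h4 hq

end Pool.Agent.Work.MP_a23c49_bd
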