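import Pool.Agent.Work.MP_a23c49_bd.Def

/-!
# MP_a23c49_bd, block W5: the colouring
-/

namespace Pool.Agent.Work.MP_a23c49_bd

open Pool.Agent.Work.MP_a23c49_lc Pool.Agent.Work.TMLib Finset

theorem W5h.col_cons (f : List (ℕ × ℕ)) (x d y : ℕ) :
    col ((x, d) :: f) y = if x = y then d else col f y := by
  unfold col
  by_cases h : x = y
  · simp [h]
  · simp [h]

theorem W5h.colr_concat (q m : ℕ) (B : List (List ℕ)) (X : List ℕ) (x : ℕ) :
    colr q m B (X ++ [x]) = (x, best q m B (colr q m B X) x) :: colr q m B X := by
  unfold colr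
  rw [List.foldl_append]
  rfl

theorem W5h.wt_nil (q m : ℕ) (t : List ℕ) (c : ℕ) (hc : 1 ≤ c) : wt q m [] t c = 1 := by
  have h1 : ∀ x, col [] x = 0 := fun x => rfl
  unfold wt
  have h2 : (t.all fun x => decide (col [] x = 0) || decide (col [] x = c)) = true := by
    rw [List.all_eq_true]
    intro x _
    simp [h1]
  rw [h2, cond_true]
  have h3 : (t.filter fun x => decide (col [] x = c)) = [] := by
    rw [List.filter_eq_nil_iff]
    intro x _
    rw [h1, decide_eq_true_eq]
    omega
  rw [h3, List.length_nil]
  cases m <;> rfl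

theorem W5h.pot_nil (q m : ℕ) (B : List (List ℕ)) : pot q m B [] = q * B.length := by
  unfold pot
  have h : ∀ t ∈ B, ((colors q).map fun c => wt q m [] t c).sum = q := by
    intro t _
    have h1 : ((colors q).map fun c => wt q m [] t c) = (colors q).map fun _ => 1 := by
      apply List.map_congr_left
      intro c hc
      apply W5h.wt_nil
      unfold colors at hc
      rw [List.mem_map] at hc
      obtain ⟨i, _, rfl⟩ := hc
      omega
    rw [h1]
    unfold colors
    simp [Function.comp_def]
  rw [List.map_congr_left h]
  simp [mul_comm]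

theorem p_W5 (hW4 : S_W4) : S_W5 := by
  intro q m B X hq hX hB
  have key : ∀ X : List ℕ, X.Nodup →
      (∀ y, y ∉ X → col (colr q m B X) y = 0) ∧
      (∀ x ∈ X, 1 ≤ col (colr q m B X) x ∧ col (colr q m B X) x ≤ q) ∧
      pot q m B (colr q m B X) ≤ q * B.length := by
    intro X
    induction X using List.reverseRecOn with
    | nil =>
      intro _
      refine ⟨fun y _ => rfl, fun x hx => by simp at hx, ?_⟩
      have h : colr q m B [] = [] := rfl
      rw [h, W5h.pot_nil]
    | append_singleton X x ih =>
      intro hnd
      have hndX : X.Nodup := (List.nodup_append.mp hnd).1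
      have hx : x ∉ X := by
        intro hx
        exact (List.nodup_append.mp hnd).2.2 x hx x (List.mem_singleton.mpr rfl) rfl
      obtain ⟨h1, h2, h3⟩ := ih hndX
      obtain ⟨h4, h5⟩ := hW4 q m B (colr q m B X) x hq hB (h1 x hx)
      rw [W5h.colr_concat]
      refine ⟨fun y hy => ?_, fun y hy => ?_, h5.trans h3⟩
      · rw [List.mem_append, List.mem_singleton, not_or] at hy
        rw [W5h.col_cons, if_neg (fun h => hy.2 h.symm)]
        exact h1 y hy.1
      · rw [W5h.col_cons]
        by_cases hxy : x = y
        · rw [if_pos hxy]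
          exact h4
        · rw [if_neg hxy]
          rw [List.mem_append, List.mem_singleton] at hy
          rcases hy with hy | hy
          · exact h2 y hy
          · exact absurd hy.symm hxy
  exact ⟨(key X hX).2.1, (key X hX).2.2⟩

end Pool.Agent.Work.MP_a23c49_bd
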