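import Pool.Agent.Work.MP_a23c49_bd.Def

/-!
# MP_a23c49_lc, theorem BD, block W6: no bad tuple inside of a colour class
-/

namespace Pool.Agent.Work.MP_a23c49_bd

open Pool.Agent.Work.MP_a23c49_lc Pool.Agent.Work.TMLib Finset

theorem p_W6 (hT1 : S_T1) (hW1 : S_W1) (hW5 : S_W5) : S_W6 := by
  intro T q m X d hq hX hd1 hd2 hlt
  rw [List.eq_nil_iff_forall_not_mem]
  intro t ht
  set B := bads T X m with hB
  obtain ⟨hlen, hmem, hnd, hcol⟩ := (hT1 T _ m t).1 ht
  have hpart : ∀ x ∈ t, x ∈ X ∧ col (colr q m B X) x = d := by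
    intro x hx
    have h := hmem x hx
    unfold part at h
    rw [List.mem_filter] at h
    exact ⟨h.1, by simpa using h.2⟩
  have htB : t ∈ B := (hT1 T X m t).2 ⟨hlen, fun x hx => (hpart x hx).1, hnd, hcol⟩
  have hBp : ∀ t' ∈ B, t'.Nodup ∧ t'.length ≤ m := by
    intro t' ht'
    obtain ⟨h1, -, h3, -⟩ := (hT1 T X m t').1 ht'
    exact ⟨h3, h1.le⟩
  obtain ⟨-, hpot⟩ := hW5 q m B X hq hX hBp
  have hw : wt q m (colr q m B X) t d = q ^ m := by
    unfold wt
    have h1 : (t.all fun x => decide (col (colr q m B X) x = 0) ||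
        decide (col (colr q m B X) x = d)) = true := by
      rw [List.all_eq_true]
      intro x hx
      simp [(hpart x hx).2]
    have h2 : (t.filter fun x => decide (col (colr q m B X) x = d)) = t := by
      rw [List.filter_eq_self]
      intro x hx
      simp [(hpart x hx).2]
    rw [h1, h2, hlen, cond_true, hW1 q m m le_rfl]
  have hdc : d ∈ colors q := by
    unfold colors
    rw [List.mem_map]
    exact ⟨d - 1, List.mem_range.2 (by omega), by omega⟩
  have h3 : wt q m (colr q m B X) t d ≤
      ((colors q).map fun c => wt q m (colr q m B X) t c).sum :=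
    List.single_le_sum (fun _ _ => Nat.zero_le _) _
      (List.mem_map.2 ⟨d, hdc, rfl⟩)
  have h4 : ((colors q).map fun c => wt q m (colr q m B X) t c).sum ≤
      pot q m B (colr q m B X) := by
    unfold pot
    exact List.single_le_sum (fun _ _ => Nat.zero_le _) _
      (List.mem_map.2 ⟨t, htB, rfl⟩)
  rw [hw] at h3
  omega

end Pool.Agent.Work.MP_a23c49_bd
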