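import Pool.Agent.Work.MP_a23c49_bd.Def

/-!
# MP_a23c49_lc, block W7: the largest class
-/

namespace Pool.Agent.Work.MP_a23c49_bd

open Pool.Agent.Work.MP_a23c49_lc Pool.Agent.Work.TMLib Finset

theorem p_W7 (hW5 : S_W5) : S_W7 := by
  intro q m B X O hq hX hB hO
  by_contra hcon
  push Not at hcon
  obtain ⟨h1, -⟩ := hW5 q m B X hq hX hB
  have hsub : O ⊆ (Finset.Icc 1 q).biUnion fun d => O ∩ (part q m B X d).toFinset := by
    intro x hx
    have hxX : x ∈ X := List.mem_toFinset.1 (hO hx)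
    obtain ⟨h2, h3⟩ := h1 x hxX
    rw [Finset.mem_biUnion]
    refine ⟨col (colr q m B X) x, Finset.mem_Icc.2 ⟨h2, h3⟩, Finset.mem_inter.2 ⟨hx, ?_⟩⟩
    rw [List.mem_toFinset]
    simp [part, hxX]
  have hc := (Finset.card_le_card hsub).trans Finset.card_biUnion_le
  have hpos : 0 < O.card := by
    have := hcon 1 le_rfl hq
    exact lt_of_le_of_lt (Nat.zero_le _) this
  have hlt : q * O.card < q * O.card := by
    calc q * O.card ≤ q * ∑ d ∈ Finset.Icc 1 q, (O ∩ (part q m B X d).toFinset).card :=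
          Nat.mul_le_mul_left _ hc
      _ = ∑ d ∈ Finset.Icc 1 q, q * (O ∩ (part q m B X d).toFinset).card := Finset.mul_sum _ _ _
      _ < ∑ d ∈ Finset.Icc 1 q, O.card := by
          refine Finset.sum_lt_sum_of_nonempty ⟨1, Finset.mem_Icc.2 ⟨le_rfl, hq⟩⟩ fun d hd => ?_
          rw [Finset.mem_Icc] at hd
          exact hcon d hd.1 hd.2
      _ = q * O.card := by simp
  exact lt_irrefl _ hlt

end Pool.Agent.Work.MP_a23c49_bd
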