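import Pool.Agent.Work.MP_a23c49_lc.Main

/-!
# MP_a23c49_lc, theorem BD: reduction to configurations with boundedly many points on a line. Definitions and block statements.

Notation: `T : ℕ → ℕ → ℕ → Bool` is the collinearity of three distinct points (given by indices), `LS T`. `m = K + 1`.
-/

set_option linter.unusedVariables false

namespace Pool.Agent.Work.MP_a23c49_bd

open Pool.Agent.Work.MP_a23c49_lc Pool.Agent.Work.TMLib Finset

/-- the colour of `x` in the association list `f`, `0` if there is none -/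
def col (f : List (ℕ × ℕ)) (x : ℕ) : ℕ := ((f.filter fun p => decide (p.1 = x)).map fun p => p.2).headD 0

/-- `[1, q, q ^ 2, .., q ^ m]` -/
def pws (q : ℕ) : ℕ → List ℕ
  | 0 => [1]
  | m + 1 => 1 :: (pws q m).map fun y => q * y

/-- all lists of length `m` with entries in `X` -/
def tup (X : List ℕ) : ℕ → List (List ℕ)
  | 0 => [[]]
  | m + 1 => (tup X m).flatMap fun t => X.map fun x => x :: t

/-- no repetition -/
def nd (t : List ℕ) : Bool := t.all fun a => decide ((t.filter fun b => decide (b = a)).length ≤ 1)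

/-- any three distinct entries are collinear -/
def cl (T : ℕ → ℕ → ℕ → Bool) (t : List ℕ) : Bool :=
  t.all fun a => t.all fun b => t.all fun c => decide (a = b) || (decide (b = c) || (decide (a = c) || T a b c))

/-- the `m`-tuples of distinct collinear points of `X` -/
def bads (T : ℕ → ℕ → ℕ → Bool) (X : List ℕ) (m : ℕ) : List (List ℕ) := (tup X m).filter fun t => nd t && cl T t

/-- the colours `1, .., q` -/
def colors (q : ℕ) : List ℕ := (List.range q).map fun i => i + 1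

/-- `q ^ j` if all entries of `t` are uncoloured or have colour `c`, where `j` is the number of the latter; else `0` -/
def wt (q m : ℕ) (f : List (ℕ × ℕ)) (t : List ℕ) (c : ℕ) : ℕ :=
  bif t.all fun x => decide (col f x = 0) || decide (col f x = c)
  then (pws q m).getD (t.filter fun x => decide (col f x = c)).length 0 else 0

/-- the potential -/
def pot (q m : ℕ) (B : List (List ℕ)) (f : List (ℕ × ℕ)) : ℕ :=
  (B.map fun t => ((colors q).map fun c => wt q m f t c).sum).sum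

/-- the best colour of `x` -/
def best (q m : ℕ) (B : List (List ℕ)) (f : List (ℕ × ℕ)) (x : ℕ) : ℕ :=
  ((colors q).filter fun d => (colors q).all fun e =>
    decide (pot q m B ((x, d) :: f) ≤ pot q m B ((x, e) :: f))).headD 1

/-- the colouring -/
def colr (q m : ℕ) (B : List (List ℕ)) (X : List ℕ) : List (ℕ × ℕ) :=
  X.foldl (fun f x => (x, best q m B f x) :: f) []

/-- the colour classes -/
def part (q m : ℕ) (B : List (List ℕ)) (X : List ℕ) (d : ℕ) : List ℕ :=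
  X.filter fun x => decide (col (colr q m B X) x = d)

/-- the colour classes of `X` without a bad `m`-tuple -/
def cand (T : ℕ → ℕ → ℕ → Bool) (m : ℕ) (X : List ℕ) (q : ℕ) : List (List ℕ) :=
  ((colors q).map fun d => part q m (bads T X m) X d).filter fun Y => (bads T Y m).isEmpty

/-- the subconfigurations -/
def outp (T : ℕ → ℕ → ℕ → Bool) (m n : ℕ) : List (List ℕ) :=
  ((List.range n).map fun i => [i]) ++
    (List.range (n + 1)).flatMap fun t => (List.range (n + 1)).flatMap fun q =>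
      cand T m (prune T t (List.range n)) q

/-- the reduction -/
def theR (m : ℕ) (S : List (ℚ × ℚ)) : List (ℚ × ℚ) × List (List (ℚ × ℚ)) :=
  ((grd (TS S) (List.range S.length)).map (at' S), (outp (TS S) m S.length).map fun Y => Y.map (at' S))

/-- encoding of a list of points and a list of lists of points -/
def encOut (x : List (ℚ × ℚ) × List (List (ℚ × ℚ))) : List (Fin 5) :=
  encPoints x.1 ++ [4] ++ x.2.flatMap fun T => encPoints T ++ [4]

/-! ### polynomial time -/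

variable {α : Type} [DE α]

/-- P1 -/
def S_P1 : Prop := ∀ m : ℕ,
  PolyF (fun p : ℕ => pws p m) ∧ PolyF (fun p : List ℕ => tup p m) ∧
  PolyF (fun p : List (ℕ × ℕ) × ℕ => col p.1 p.2) ∧ PolyF (fun q : ℕ => colors q)

/-- P2 -/
def S_P2 : Prop := ∀ m : ℕ, PolyF (fun p : List (ℕ × ℕ × ℕ) × List ℕ => bads (TL p.1) p.2 m)

/-- P3 -/
def S_P3 : Prop := ∀ m : ℕ, PolyF (fun p : (ℕ × List (List ℕ)) × List (ℕ × ℕ) => pot p.1.1 m p.1.2 p.2)

/-- P4 -/
def S_P4 : Prop := ∀ m : ℕ, PolyF (fun p : ((ℕ × List (List ℕ)) × List (ℕ × ℕ)) × ℕ => best p.1.1.1 m p.1.1.2 p.1.2 p.2)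

/-- P5 -/
def S_P5 : Prop := ∀ m : ℕ, PolyF (fun p : ((ℕ × List (List ℕ)) × List ℕ) × ℕ => part p.1.1.1 m p.1.1.2 p.1.2 p.2)

/-- P6 -/
def S_P6 : Prop := ∀ m : ℕ, PolyF (fun p : List (ℕ × ℕ × ℕ) × ℕ => outp (TL p.1) m p.2)

/-- P7 -/
def S_P7 : Prop := ∀ m : ℕ, PolyTime encPoints encOut (theR m)

/-! ### tuples -/

/-- T1 -/
def S_T1 : Prop := ∀ (T : ℕ → ℕ → ℕ → Bool) (X : List ℕ) (m : ℕ) (t : List ℕ), t ∈ bads T X m ↔
  t.length = m ∧ (∀ x ∈ t, x ∈ X) ∧ t.Nodup ∧ ∀ a ∈ t, ∀ b ∈ t, ∀ c ∈ t, a ≠ b → b ≠ c → a ≠ c → T a b c = true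

/-- T2: the number of bad tuples -/
def S_T2 : Prop := ∀ (T : ℕ → ℕ → ℕ → Bool) (X : List ℕ) (s j : ℕ), X.Nodup →
  (∀ a ∈ X, ∀ b ∈ X, (X.filter fun c => T a b c).length ≤ s) →
  (bads T X (j + 2)).length ≤ X.length ^ 2 * s ^ j

/-! ### the potential -/

/-- W1 -/
def S_W1 : Prop := ∀ (q m j : ℕ), j ≤ m → (pws q m).getD j 0 = q ^ j

/-- W2: the average of one weight -/
def S_W2 : Prop := ∀ (q m : ℕ) (f : List (ℕ × ℕ)) (t : List ℕ) (c x : ℕ), 1 ≤ c → c ≤ q → t.Nodup → t.length ≤ m →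
  col f x = 0 → ((colors q).map fun d => wt q m ((x, d) :: f) t c).sum = q * wt q m f t c

/-- W3: the average of the potential -/
def S_W3 : Prop := ∀ (q m : ℕ) (B : List (List ℕ)) (f : List (ℕ × ℕ)) (x : ℕ), (∀ t ∈ B, t.Nodup ∧ t.length ≤ m) →
  col f x = 0 → ((colors q).map fun d => pot q m B ((x, d) :: f)).sum = q * pot q m B f

/-- W4: the best colour -/
def S_W4 : Prop := ∀ (q m : ℕ) (B : List (List ℕ)) (f : List (ℕ × ℕ)) (x : ℕ), 1 ≤ q →
  (∀ t ∈ B, t.Nodup ∧ t.length ≤ m) → col f x = 0 →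
  (1 ≤ best q m B f x ∧ best q m B f x ≤ q) ∧ pot q m B ((x, best q m B f x) :: f) ≤ pot q m B f

/-- W5: the colouring -/
def S_W5 : Prop := ∀ (q m : ℕ) (B : List (List ℕ)) (X : List ℕ), 1 ≤ q → X.Nodup → (∀ t ∈ B, t.Nodup ∧ t.length ≤ m) →
  (∀ x ∈ X, 1 ≤ col (colr q m B X) x ∧ col (colr q m B X) x ≤ q) ∧ pot q m B (colr q m B X) ≤ q * B.length

/-- W6: no bad tuple inside of a colour class -/
def S_W6 : Prop := ∀ (T : ℕ → ℕ → ℕ → Bool) (q m : ℕ) (X : List ℕ) (d : ℕ), 1 ≤ q → X.Nodup → 1 ≤ d → d ≤ q →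
  q * (bads T X m).length < q ^ m → bads T (part q m (bads T X m) X d) m = []

/-- W7: the largest class -/
def S_W7 : Prop := ∀ (q m : ℕ) (B : List (List ℕ)) (X : List ℕ) (O : Finset ℕ), 1 ≤ q → X.Nodup →
  (∀ t ∈ B, t.Nodup ∧ t.length ≤ m) → O ⊆ X.toFinset →
  ∃ d, 1 ≤ d ∧ d ≤ q ∧ O.card ≤ q * (O ∩ (part q m B X d).toFinset).card

/-! ### the two cases -/

/-- D1: one pair of parameters -/
def S_D1 : Prop := ∀ (T : ℕ → ℕ → ℕ → Bool) (n t q j : ℕ) (O : Finset ℕ), LS T →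
  (∀ a b c, T a b c = true → a ∈ List.range n ∧ b ∈ List.range n) → Ind T O → O ⊆ (List.range n).toFinset →
  t ≤ n → q ≤ n → 1 ≤ q → n ^ 2 * t ^ j < q ^ (j + 1) →
  t * O.card ≤ 4 * n ∨ ∃ Y ∈ outp T (j + 2) n, O.card ≤ 2 * (q * (O ∩ Y.toFinset).card)

/-- D2: numbers -/
def S_D2 : Prop := ∀ (ε : ℝ) (K n : ℕ), 0 < ε → ε ≤ 1 → 2 / ε ≤ K → 1 ≤ n →
  ∃ t q j : ℕ, K = j + 1 ∧ 1 ≤ q ∧ t ≤ n ∧ n ^ 2 * t ^ j < q ^ (j + 1) ∧ (n : ℝ) ^ ε ≤ 2 * t ∧
    (q : ℝ) ≤ 2 * (n : ℝ) ^ (2 * ε)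

/-- D3: the alternative for indices -/
def S_D3 : Prop := ∀ (ε : ℝ) (K n : ℕ) (T : ℕ → ℕ → ℕ → Bool) (O : Finset ℕ), 0 < ε → ε ≤ 1 → 2 / ε ≤ K → 1 ≤ n → LS T →
  (∀ a b c, T a b c = true → a ∈ List.range n ∧ b ∈ List.range n) → Ind T O → O ⊆ (List.range n).toFinset →
  (O.card : ℝ) ≤ 5 * (n : ℝ) ^ ((1 - ε) / 2) * (grd T (List.range n)).length ∨
    ∃ Y ∈ outp T (K + 1) n, (O.card : ℝ) ≤ 4 * (n : ℝ) ^ (2 * ε) * (O ∩ Y.toFinset).card

/-! ### points -/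

/-- F1: the subconfigurations are bounded -/
def S_F1 : Prop := ∀ (S : List (ℚ × ℚ)) (K : ℕ), S.Nodup → 2 ≤ K → ∀ Y ∈ outp (TS S) (K + 1) S.length,
  Y.Nodup ∧ (∀ i ∈ Y, i < S.length) ∧ bads (TS S) Y (K + 1) = []

/-- F2: at most `K` points on a line -/
def S_F2 : Prop := ∀ (S : List (ℚ × ℚ)) (K : ℕ) (Y : List ℕ), S.Nodup → 2 ≤ K → Y.Nodup → (∀ i ∈ Y, i < S.length) →
  bads (TS S) Y (K + 1) = [] → ∀ A : Finset (ℚ × ℚ), A ⊆ (Y.map (at' S)).toFinset →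
  Collinear ℝ (pt '' (A : Set (ℚ × ℚ))) → A.card ≤ K

/-- F3: independent sets of indices give sets in general position -/
def S_F3 : Prop := ∀ (S : List (ℚ × ℚ)) (O : Finset ℕ) (Y : List ℕ), S.Nodup → Ind (TS S) O → (∀ i ∈ Y, i < S.length) →
  (O ∩ Y.toFinset).card ≤ MG (Y.map (at' S)).toFinset

/-- F4: the greedy set -/
def S_F4 : Prop := ∀ (S : List (ℚ × ℚ)), S.Nodup → ((grd (TS S) (List.range S.length)).map (at' S)).Nodup ∧
  ((grd (TS S) (List.range S.length)).map (at' S)).toFinset ⊆ S.toFinset ∧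
  GenPos ((grd (TS S) (List.range S.length)).map (at' S)).toFinset

/-- the theorem -/
def S_FIN : Prop := ∀ (ε : ℝ) (K : ℕ), 0 < ε → ε ≤ 1 → 2 / ε ≤ K →
  ∃ R : List (ℚ × ℚ) → List (ℚ × ℚ) × List (List (ℚ × ℚ)), PolyTime encPoints encOut R ∧
    ∀ S : List (ℚ × ℚ), S.Nodup →
      ((R S).1.Nodup ∧ (R S).1.toFinset ⊆ S.toFinset ∧ GenPos (R S).1.toFinset) ∧
      (∀ Y ∈ (R S).2, Y.Nodup ∧ Y.toFinset ⊆ S.toFinset ∧
        ∀ A : Finset (ℚ × ℚ), A ⊆ Y.toFinset → Collinear ℝ (pt '' (A : Set (ℚ × ℚ))) → A.card ≤ K) ∧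
      (S ≠ [] → (MG S.toFinset : ℝ) ≤ 5 * (S.length : ℝ) ^ ((1 - ε) / 2) * (R S).1.length ∨
        ∃ Y ∈ (R S).2, (MG S.toFinset : ℝ) ≤ 4 * (S.length : ℝ) ^ (2 * ε) * MG Y.toFinset)

end Pool.Agent.Work.MP_a23c49_bd
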