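import Pool.Agent.Work.MP_a23c49_bd.B_P1
import Pool.Agent.Work.MP_a23c49_bd.B_P2
import Pool.Agent.Work.MP_a23c49_bd.B_P3
import Pool.Agent.Work.MP_a23c49_bd.B_P4
import Pool.Agent.Work.MP_a23c49_bd.B_P5
import Pool.Agent.Work.MP_a23c49_bd.B_P6
import Pool.Agent.Work.MP_a23c49_bd.B_P7
import Pool.Agent.Work.MP_a23c49_bd.B_T1
import Pool.Agent.Work.MP_a23c49_bd.B_T2
import Pool.Agent.Work.MP_a23c49_bd.B_W1
import Pool.Agent.Work.MP_a23c49_bd.B_W2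
import Pool.Agent.Work.MP_a23c49_bd.B_W3
import Pool.Agent.Work.MP_a23c49_bd.B_W4
import Pool.Agent.Work.MP_a23c49_bd.B_W5
import Pool.Agent.Work.MP_a23c49_bd.B_W6
import Pool.Agent.Work.MP_a23c49_bd.B_W7
import Pool.Agent.Work.MP_a23c49_bd.B_D1
import Pool.Agent.Work.MP_a23c49_bd.B_D2
import Pool.Agent.Work.MP_a23c49_bd.B_D3
import Pool.Agent.Work.MP_a23c49_bd.B_F1
import Pool.Agent.Work.MP_a23c49_bd.B_F2
import Pool.Agent.Work.MP_a23c49_bd.B_F3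
import Pool.Agent.Work.MP_a23c49_bd.B_F4
import Pool.Agent.Work.MP_a23c49_bd.B_FIN

/-!
# Assembly
-/

namespace Pool.Agent.Work.MP_a23c49_bd

theorem g_P2 : S_P2 := p_P2 p_P1
theorem g_P3 : S_P3 := p_P3 p_P1
theorem g_P4 : S_P4 := p_P4 p_P1 g_P3
theorem g_P5 : S_P5 := p_P5 p_P1 g_P4
theorem g_P6 : S_P6 := p_P6 g_P2 g_P5 p_P1
theorem g_P7 : S_P7 := p_P7 g_P6
theorem g_T2 : S_T2 := p_T2 p_T1
theorem g_W2 : S_W2 := p_W2 p_W1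
theorem g_W3 : S_W3 := p_W3 g_W2
theorem g_W4 : S_W4 := p_W4 g_W3
theorem g_W5 : S_W5 := p_W5 g_W4
theorem g_W6 : S_W6 := p_W6 p_T1 p_W1 g_W5
theorem g_W7 : S_W7 := p_W7 g_W5
theorem g_D1 : S_D1 := p_D1 p_T1 g_T2 g_W6 g_W7
theorem g_D3 : S_D3 := p_D3 g_D1 p_D2
theorem g_F2 : S_F2 := p_F2 p_T1
theorem g_FIN : S_FIN := p_FIN g_P7 g_D3 p_F1 g_F2 p_F3 p_F4

end Pool.Agent.Work.MP_a23c49_bd
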